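import Pool.Agent.Helper11x.SP.Defs
import Pool.Agent.H620R2.GaugeX.X8
import Pool.Agent.H620R2.GaugeR.Seq
import Pool.Agent.TH678.PN.Pat1
import Pool.Agent.TH678.WP.Down
import Pool.Agent.H620R2.Gauge2.Trans

/-!
# An oracle relative to which few strings do not help against `PSPACE`
-/

set_option autoImplicit false

namespace Pool.Agent.Helper11x.SP

open Finset Filter Pool.Agent.NPC Pool.Agent.H620R2.Gauge Pool.Agent.TH678.GC Pool.Agent.HM13.PC
  Pool.Agent.H622R2
open Pool.Agent.TH678.PN (cut_congr)

/-- a list of strings as a string -/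
def enc : List (List Bool) → List Bool
  | [] => []
  | z :: l => pairBits z (enc l)

theorem enc_inj : ∀ {l l' : List (List Bool)}, enc l = enc l' → l = l'
  | [], [], _ => rfl
  | [], z :: l, h => by
    have := congrArg List.length h
    simp only [enc, length_pairBits, List.length_nil] at this
    omega
  | z :: l, [], h => by
    have := congrArg List.length h
    simp only [enc, length_pairBits, List.length_nil] at this
    omega
  | z :: l, z' :: l', h => by
    have h1 : pairBits z (enc l) = pairBits z' (enc l') := h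
    have h2 := congrArg unpair h1
    rw [unpair_pairBits, unpair_pairBits, Prod.mk.injEq] at h2
    rw [h2.1, enc_inj h2.2]

theorem length_enc {n : ℕ} : ∀ {l : List (List Bool)}, (∀ z ∈ l, z.length ≤ n) →
    (enc l).length ≤ l.length * (2 * n + 1)
  | [], _ => by simp [enc]
  | z :: l, h => by
    have h1 := length_enc (l := l) fun z' hz' => h z' (List.mem_cons_of_mem _ hz')
    have h2 := h z (by simp)
    show (pairBits z (enc l)).length ≤ _
    rw [length_pairBits, List.length_cons, Nat.add_mul]
    omega

open Classical in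
/-- the strings in the list which is given by the string `h` -/
noncomputable def lst (h : List Bool) : Oracle := fun z => decide (∃ l, enc l = h ∧ z ∈ l)

theorem lst_enc (l : List (List Bool)) (z : List Bool) : lst (enc l) z = true ↔ z ∈ l := by
  unfold lst
  simp only [decide_eq_true_eq]
  constructor
  · rintro ⟨l', h, hz⟩
    rw [← enc_inj h]
    exact hz
  · exact fun h => ⟨l, rfl, h⟩

/-- **The oracle.** It solves all questions in `PSPACE` relative to itself and a finite list. -/
theorem exists_base : ∃ B : Oracle, ∀ (M : SAlg) (p : Polynomial ℕ), ∃ (b : Polynomial ℕ)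
    (c : List Bool → List Bool), Poly c ∧ ∀ (S : Oracle) (L : Set (List Bool)),
      (∀ x, (∀ s, M.Reach (join B S) x s → s.length ≤ p.eval x.length) ∧
        ∃ s z, M.Reach (join B S) x s ∧ M.act (pairBits x s) = true :: z ∧
          (x ∈ L ↔ z = [true])) →
      ∀ x h : List Bool, (∀ z : List Bool, z.length ≤ b.eval x.length → S z = lst h z) →
        (x ∈ L ↔ B (c (pairBits x h)) = true) := by
  obtain ⟨g, hg⟩ := CC.exists_enum
  choose bd hbd using pspace_task
  let R : ℕ → Polynomial ℕ := fun e => bd (g e).1 (g e).2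
  let V : ℕ → Oracle → List Bool → Prop := fun e A y => ∃ x h, y = pairBits x h ∧
    CC.Acc (g e).1 (CC.cut ((bd (g e).1 (g e).2).eval x.length) (join A (lst h))) x
  have hV : ∀ e A A' y, (∀ z : List Bool, z.length < (code R e y).length → A z = A' z) →
      (V e A y ↔ V e A' y) := by
    intro e A A' y hA
    refine exists_congr fun x => exists_congr fun h => and_congr_right fun hy => ?_
    have hcut : CC.cut ((bd (g e).1 (g e).2).eval x.length) (join A (lst h)) =
        CC.cut ((bd (g e).1 (g e).2).eval x.length) (join A' (lst h)) := by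
      apply cut_congr
      intro z hz
      rcases z with _ | ⟨_ | _, z⟩
      · rfl
      · show A z = A' z
        apply hA
        have h1 := CC.lt_length_code R e y
        have h2 : x.length ≤ y.length := by
          rw [hy, length_pairBits]
          omega
        have h3 := eval_mono (bd (g e).1 (g e).2) h2
        rw [List.length_cons] at hz
        change (bd (g e).1 (g e).2).eval y.length < _ at h1
        omega
      · rfl
    rw [hcut]
  refine ⟨CC.Phi R V (fun _ => false), fun M p => ?_⟩
  obtain ⟨e, he⟩ := hg (M, p)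
  refine ⟨bd M p, fun y => code R e y, CC.poly_code R e, fun S L hM x h hS => ?_⟩
  rw [hbd M p _ L hM x, CC.Phi_code R V _ hV e]
  have key : ∀ x' h', pairBits x h = pairBits x' h' → x = x' ∧ h = h' := by
    intro x' h' hh
    have h2 := congrArg unpair hh
    rw [unpair_pairBits, unpair_pairBits, Prod.mk.injEq] at h2
    exact h2
  have hcut : CC.cut ((bd M p).eval x.length) (join (CC.Phi R V (fun _ => false)) S) =
      CC.cut ((bd M p).eval x.length) (join (CC.Phi R V (fun _ => false)) (lst h)) := by
    apply cut_congr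
    intro z hz
    rcases z with _ | ⟨_ | _, z⟩
    · rfl
    · rfl
    · show S z = lst h z
      rw [List.length_cons] at hz
      exact hS z (by omega)
  rw [hcut]
  constructor
  · intro hA
    refine ⟨x, h, rfl, ?_⟩
    rw [he]
    exact hA
  · rintro ⟨x', h', hh, hA⟩
    obtain ⟨rfl, rfl⟩ := key x' h' hh
    rw [he] at hA
    exact hA

/-- the list of the strings of length at most `n` in `S` -/
theorem exists_list (S : Oracle) (n : ℕ) : ∃ l : List (List Bool),
    (∀ z, z ∈ l ↔ S z = true ∧ z.length ≤ n) ∧
    l.length = {s : List Bool | S s = true ∧ s.length ≤ n}.ncard := by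
  have hf : {s : List Bool | S s = true ∧ s.length ≤ n}.Finite :=
    (List.finite_length_le Bool n).subset fun s hs => hs.2
  refine ⟨hf.toFinset.toList, fun z => ?_, ?_⟩
  · rw [mem_toList, Set.Finite.mem_toFinset]
    rfl
  · rw [length_toList, Set.ncard_eq_toFinset_card _ hf]

theorem isP_ask (A : Oracle) {c : List Bool → List Bool} (hc : Poly c) :
    IsP A {y | A (c y) = true} :=
  ⟨fun y => [A (c y)], TH678.WP.isFP_ask' A hc, fun y => by simp⟩

/-- **Few strings do not help against `PSPACE`.** -/
theorem exists_few : ∃ B : Oracle, ∀ (g : ℕ → ℕ) (S : Oracle), Sparse g S →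
    ((∃ c, ∀ n, g n ≤ c) → ∀ L, IsPSPACE (join B S) L → IsP (join B S) L) ∧
    ((∃ p : Polynomial ℕ, ∀ n, g n ≤ p.eval n) →
      ∀ L, IsPSPACE (join B S) L → WithAdvice (IsP (join B S)) L) := by
  obtain ⟨B, hB⟩ := exists_base
  refine ⟨B, fun g S hS => ⟨fun hg L hL => ?_, fun hg L hL => ?_⟩⟩
  · obtain ⟨k, hk⟩ := hg
    obtain ⟨M, p, hM⟩ := hL
    obtain ⟨b, c, hc, h⟩ := hB M p
    have hfin : {s : List Bool | S s = true}.Finite := by
      by_contra hinf
      obtain ⟨t, ht, htc⟩ := Set.Infinite.exists_subset_card_eq (show Set.Infinite _ from hinf)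
        (k + 1)
      set n := t.sup List.length with hn
      have h1 : (t : Set (List Bool)) ⊆ {s : List Bool | S s = true ∧ s.length ≤ n} := by
        intro s hs
        exact ⟨ht hs, le_sup (f := List.length) (mem_coe.1 hs)⟩
      have h2 := Set.ncard_le_ncard h1 ((List.finite_length_le Bool n).subset fun s hs => hs.2)
      rw [Set.ncard_coe_finset, htc] at h2
      have h3 := hS n
      have h4 := hk n
      omega
    set h₀ := enc hfin.toFinset.toList with hh₀
    have hP : Poly (fun x : List Bool => false :: c (pairBits x h₀)) :=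
      Poly.cons (NPC.Poly.const false) (hc.comp (poly_pairBits Poly.id (NPC.Poly.const h₀)))
    have h5 := isP_ask (join B S) hP
    have h6 : L = {y | join B S (false :: c (pairBits y h₀)) = true} := by
      ext x
      refine h S L hM x h₀ fun z _ => ?_
      rw [Bool.eq_iff_iff, hh₀, lst_enc, mem_toList, Set.Finite.mem_toFinset]
      rfl
    rw [h6]
    exact h5
  · obtain ⟨P, hP⟩ := hg
    obtain ⟨M, p, hM⟩ := hL
    obtain ⟨b, c, hc, h⟩ := hB M p
    choose l hl1 hl2 using fun n => exists_list S (b.eval n)
    refine ⟨{y | join B S (false :: c y) = true}, fun n => enc (l n),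
      P.comp b * (2 * b + 1), isP_ask (join B S) (Poly.cons (NPC.Poly.const false) hc),
      fun n => ?_, fun x => ?_⟩
    · refine (length_enc (n := b.eval n) fun z hz => ((hl1 n z).1 hz).2).trans ?_
      have h1 : (l n).length ≤ P.eval (b.eval n) := by
        rw [hl2]
        exact (hS _).trans (hP _)
      have h2 := Nat.mul_le_mul_right (2 * b.eval n + 1) h1
      refine h2.trans (le_of_eq ?_)
      simp [Polynomial.eval_comp]
    · refine h S L hM x (enc (l x.length)) fun z hz => ?_
      rw [Bool.eq_iff_iff, lst_enc, hl1]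
      exact ⟨fun h => ⟨h, hz⟩, fun h => h.1⟩

/-! ### Complete pairs -/

theorem np_single (A : Oracle) (b : Bool) : IsNP A {[b]} := by
  have h1 : Poly (fun z : List Bool => [decide ((unpair z).2 = [b])]) :=
    Poly.cons (Poly.decide_eq (Poly.snd poly_unpair) (NPC.Poly.const [b])) (NPC.Poly.const [])
  refine ⟨_, 0, IsFP.of_poly h1, fun x => ?_⟩
  simp only [unpair_pairBits, List.cons.injEq, and_true, decide_eq_true_eq,
    Set.mem_singleton_iff]
  constructor
  · intro h
    exact ⟨[], by simp, h⟩
  · rintro ⟨_, _, h⟩
    exact h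

theorem pair_single (A : Oracle) : IsPair A {[true]} {[false]} :=
  ⟨np_single A true, np_single A false, by simp⟩

theorem fp_decide {A : Oracle} {V : List Bool → List Bool} (hV : IsFP A V) :
    IsFP A (fun y => [decide (V y = [true])]) := by
  have h1 : Poly (fun z : List Bool => [decide (z = [true])]) :=
    Poly.cons (Poly.decide_eq Poly.id (NPC.Poly.const [true])) (NPC.Poly.const [])
  exact IsFP.comp (IsFP.of_poly h1) hV

/-- If `PSPACE = P` then there is a complete disjoint `NP` pair. -/
theorem complete_of {A : Oracle} (h : ∀ L, IsPSPACE A L → IsP A L) :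
    Complete A {[true]} {[false]} := by
  refine ⟨pair_single A, fun U V hUV => ?_⟩
  obtain ⟨W, hW, hW'⟩ := h U hUV.1.isPSPACE
  refine ⟨_, fp_decide hW, fun x hx => ?_, fun x hx => ?_⟩
  · rw [Set.mem_singleton_iff, List.cons.injEq, decide_eq_true_eq]
    exact ⟨(hW' x).1 hx, rfl⟩
  · rw [Set.mem_singleton_iff, List.cons.injEq, decide_eq_false_iff_not]
    exact ⟨fun h' => Set.disjoint_left.1 hUV.2.2 ((hW' x).2 h') hx, rfl⟩

/-- If `PSPACE ⊆ P/poly` then there is a disjoint `NP` pair which is complete for nonuniform
reductions. -/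
theorem completePoly_of {A : Oracle} (h : ∀ L, IsPSPACE A L → WithAdvice (IsP A) L) :
    CompletePoly A {[true]} {[false]} := by
  refine ⟨pair_single A, fun U V hUV => ?_⟩
  obtain ⟨L', k, p, ⟨W, hW, hW'⟩, hk, hU⟩ := h U hUV.1.isPSPACE
  refine ⟨_, p, k, fp_decide hW, hk, fun x hx => ?_, fun x hx => ?_⟩
  · rw [Set.mem_singleton_iff, List.cons.injEq, decide_eq_true_eq]
    exact ⟨(hW' _).1 ((hU x).1 hx), rfl⟩
  · rw [Set.mem_singleton_iff, List.cons.injEq, decide_eq_false_iff_not]
    exact ⟨fun h' => Set.disjoint_left.1 hUV.2.2 ((hU x).2 ((hW' _).2 h')) hx, rfl⟩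

end Pool.Agent.Helper11x.SP
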