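import Pool.Agent.HM13.PC.Defs
import Pool.Agent.Helper11x.QG.Defs

/-!
# Disjoint `NP` pairs, reductions and separation by quantum circuits; sparse oracles
-/

set_option autoImplicit false

namespace Pool.Agent.Helper11x.SP

open Pool.Agent.NPC Pool.Agent.H620R2.Gauge Pool.Agent.TH678.GC Pool.Agent.HM13.PC Filter
  Pool.Agent.Helper11x.QG
open Pool.Agent.H9x.Q (QFamily)

/-- The oracle `S` has at most `g n` strings of length at most `n`, for all `n`. -/
def Sparse (g : ℕ → ℕ) (S : Oracle) : Prop :=
  ∀ n, {s : List Bool | S s = true ∧ s.length ≤ n}.ncard ≤ g n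

/-- `(P, Q)` is a disjoint `NP` pair relative to `A`. -/
def IsPair (A : Oracle) (P Q : Set (List Bool)) : Prop := IsNP A P ∧ IsNP A Q ∧ Disjoint P Q

/-- The disjoint `NP` pair `(P, Q)` is complete: every disjoint `NP` pair `(U, V)` is mapped into it
by a function computable in polynomial time (everything relative to `A`). -/
def Complete (A : Oracle) (P Q : Set (List Bool)) : Prop :=
  IsPair A P Q ∧ ∀ U V, IsPair A U V →
    ∃ f, IsFP A f ∧ (∀ x ∈ U, f x ∈ P) ∧ ∀ x ∈ V, f x ∈ Q

/-- The disjoint `NP` pair `(P, Q)` is complete for nonuniform reductions: every disjoint `NP` pair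
`(U, V)` is mapped into it by a function computable in polynomial time with polynomial advice
`h |x|` (everything relative to `A`). -/
def CompletePoly (A : Oracle) (P Q : Set (List Bool)) : Prop :=
  IsPair A P Q ∧ ∀ U V, IsPair A U V →
    ∃ (f : List Bool → List Bool) (p : Polynomial ℕ) (h : ℕ → List Bool), IsFP A f ∧
      (∀ n, (h n).length ≤ p.eval n) ∧ (∀ x ∈ U, f (pairBits x (h x.length)) ∈ P) ∧
      ∀ x ∈ V, f (pairBits x (h x.length)) ∈ Q

/-- `x` is in `U` or `V`, and the quantum circuit with the advice `h` tells in which one, with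
bounded error. -/
def RightOn (F : QFamily) (A : Oracle) (U V : Set (List Bool)) (x h : List Bool) : Prop :=
  (x ∈ U ∧ 2 / 3 ≤ accAdv F A x h) ∨ (x ∈ V ∧ accAdv F A x h ≤ 1 / 3)

/-- Some polynomial-time uniform family of quantum circuits separates `U` from `V`, relative to `A`,
on at least the fraction `γ` of the inputs of length `n` in `U ∪ V`, for all large `n`. (Nothing is
required for the inputs outside of `U ∪ V`.) -/
def SepBQP (γ : ℝ) (A : Oracle) (U V : Set (List Bool)) : Prop :=
  ∃ F : QFamily, ∀ᶠ n : ℕ in atTop,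
    γ * ({x : List Bool | x.length = n ∧ (x ∈ U ∨ x ∈ V)}.ncard : ℝ) ≤
      ({x : List Bool | x.length = n ∧ RightOn F A U V x []}.ncard : ℝ)

/-- Some quantum circuits of polynomial size with polynomial advice `h n` separate `U` from `V`,
relative to `A`, on at least the fraction `γ` of the inputs of length `n` in `U ∪ V`, for all
large `n`. (Nothing is required for the inputs outside of `U ∪ V`.) -/
def SepBQPpoly (γ : ℝ) (A : Oracle) (U V : Set (List Bool)) : Prop :=
  ∃ (F : QFamily) (p : Polynomial ℕ) (h : ℕ → List Bool), (∀ n, (h n).length ≤ p.eval n) ∧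
    ∀ᶠ n : ℕ in atTop, γ * ({x : List Bool | x.length = n ∧ (x ∈ U ∨ x ∈ V)}.ncard : ℝ) ≤
      ({x : List Bool | x.length = n ∧ RightOn F A U V x (h n)}.ncard : ℝ)

/-- Relative to `A`, no disjoint `NP` pair `(P, Q)` is hard even for the disjoint pairs of languages
in `UP` and for quantum Turing reductions: some such pair `(U, V)` is not separated by quantum
circuits of the kind `Sep` which have, besides `A`, a suitable separator `T` of `(P, Q)` as an
oracle. -/
def NoneHard (Sep : Oracle → Set (List Bool) → Set (List Bool) → Prop) (A : Oracle) : Prop :=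
  ∀ P Q : Set (List Bool), IsPair A P Q → ∃ T : Oracle, (∀ x ∈ P, T x = true) ∧
    (∀ x ∈ Q, T x = false) ∧ ∃ U V : Set (List Bool), IsUP A U ∧ IsUP A V ∧ Disjoint U V ∧
      ¬ Sep (join A T) U V

end Pool.Agent.Helper11x.SP
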