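import Pool.Agent.Helper11x.QG.Dp

/-!
# A direct product bound for hidden plants

In every block one plant is hidden; it has a side. A function which is smooth in the plants cannot
know the sides of many more than one half of the plants, except with exponentially small
probability.
-/

set_option autoImplicit false

namespace Pool.Agent.Helper11x.SP

open Finset H568R2 Pool.Agent.Helper11x.QG

/-- smooth in the plants: if every plant is changed with weight at most `K`, then the weighted sum
of the squared differences is at most `T * K` -/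
def SmO {κ Ω : Type} [DecidableEq Ω] (T : ℝ) (P : (κ → Option Ω) → ℝ) : Prop :=
  ∀ (ι : Type) [Fintype ι] (w : ι → ℝ) (K : ℝ) (a : κ → Option Ω) (F : ι → κ → Option Ω),
    (∀ i, 0 ≤ w i) → 0 ≤ K →
    (∀ k v, ∑ i ∈ univ.filter (fun i => ¬ (F i k = some v ↔ a k = some v)), w i ≤ K) →
    ∑ i, w i * (P (F i) - P a) ^ 2 ≤ T * K

/-- the value `v` tells the side `c` -/
def Rt (t : ℝ) (c : Bool) (v : ℝ) : Prop :=
  (c = true → 1 / 2 + t ≤ v) ∧ (c = false → v ≤ 1 / 2 - t)

variable {κ Ω : Type} [DecidableEq κ] [Fintype Ω] [DecidableEq Ω]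

open Classical in
/-- one block -/
theorem blk {side : Ω → Bool} (hb : ∀ c, 2 * (univ.filter (fun v => side v = c)).card =
    Fintype.card Ω) {T : ℝ} (P : (κ → Option Ω) → ℝ) (hP : SmO T P) (a : κ → Option Ω) (k : κ) :
    ((univ.filter (fun v => Rt (1 / 12) (side v) (P (Function.update a k (some v))))).card : ℝ) ≤
      Fintype.card Ω / 2 + 144 * T := by
  set a₀ := Function.update a k none with ha₀
  set F : Ω → κ → Option Ω := fun v => Function.update a k (some v) with hF
  have h := hP Ω (fun _ => 1) 1 a₀ F (fun _ => zero_le_one) zero_le_one (by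
    intro k' v'
    rw [Finset.sum_const, nsmul_eq_mul, mul_one]
    norm_cast
    rw [Finset.card_le_one]
    have key : ∀ v, ¬ (F v k' = some v' ↔ a₀ k' = some v') → v = v' := by
      intro v hv
      by_contra hne
      apply hv
      simp only [hF, ha₀]
      by_cases hk : k' = k
      · subst hk
        simp [hne]
      · rw [Function.update_of_ne hk, Function.update_of_ne hk]
    intro v hv u hu
    rw [key v (mem_filter.1 hv).2, key u (mem_filter.1 hu).2])
  rw [mul_one] at h
  simp only [one_mul] at h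
  set X := univ.filter (fun v => 1 / 12 ≤ |P (F v) - P a₀|) with hX
  have hXc : (X.card : ℝ) ≤ 144 * T := by
    have h2 : (X.card : ℝ) * (1 / 144) ≤ T := by
      refine le_trans ?_ h
      rw [← nsmul_eq_mul, ← Finset.sum_const]
      refine le_trans (Finset.sum_le_sum (g := fun v => (P (F v) - P a₀) ^ 2) ?_)
        (Finset.sum_le_sum_of_subset_of_nonneg (Finset.subset_univ _) (fun _ _ _ => sq_nonneg _))
      intro v hv
      have h3 := (mem_filter.1 hv).2
      have h4 := pow_le_pow_left₀ (by norm_num) h3 2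
      rw [sq_abs] at h4
      linarith
    linarith
  set c₀ : Bool := decide (1 / 2 < P a₀) with hc₀
  have hsub : univ.filter (fun v => Rt (1 / 12) (side v) (P (F v))) ⊆
      univ.filter (fun v => side v = c₀) ∪ X := by
    intro v hv
    have h1 := (mem_filter.1 hv).2
    rw [mem_union]
    by_cases hx : v ∈ X
    · exact Or.inr hx
    · left
      rw [hX, mem_filter, not_and, not_le] at hx
      have h2 := abs_lt.1 (hx (mem_univ _))
      rw [mem_filter]
      refine ⟨mem_univ _, ?_⟩
      cases hs : side v with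
      | true =>
        have h3 := h1.1 hs
        rw [hc₀, eq_comm, decide_eq_true_eq]
        linarith [h2.2]
      | false =>
        have h3 := h1.2 hs
        rw [hc₀, eq_comm, decide_eq_false_iff_not, not_lt]
        linarith [h2.1]
  have h3 := (card_le_card hsub).trans (card_union_le _ _)
  have h4 : ((univ.filter (fun v => Rt (1 / 12) (side v) (P (F v)))).card : ℝ) ≤
      ((univ.filter (fun v => side v = c₀)).card : ℝ) + X.card := by exact_mod_cast h3
  have h5 : (2 : ℝ) * (univ.filter (fun v => side v = c₀)).card = Fintype.card Ω := by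
    exact_mod_cast hb c₀
  linarith

/-- a product of functions each of which depends on one of the distinguished coordinates only -/
theorem prod_res [Fintype κ] {ι : Type} [DecidableEq ι] {w : Ω → ℝ} (hw0 : ∀ v, 0 ≤ w v)
    (hw : ∑ v, w v = 1)
    (c : ι → κ) (φ : ι → (κ → Ω) → ℝ) (g : ι → ℝ) (S : Finset ι) (h0 : ∀ i ∈ S, ∀ a, 0 ≤ φ i a)
    (hi : ∀ i ∈ S, ∀ i' ∈ S, i ≠ i' → ∀ a v, φ i (Function.update a (c i') v) = φ i a)
    (hb : ∀ i ∈ S, ∀ a, ∑ v, w v * φ i (Function.update a (c i) v) ≤ g i) :
    Ex w (fun a => ∏ i ∈ S, φ i a) ≤ ∏ i ∈ S, g i := by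
  induction S using Finset.induction_on with
  | empty => simp only [prod_empty]; rw [Ex_const hw]
  | insert i S hiS ih =>
    simp only [prod_insert hiS]
    rw [Ex_resample hw _ (c i)]
    have hS := ih (fun j hj => h0 j (mem_insert_of_mem hj))
      (fun j hj j' hj' => hi j (mem_insert_of_mem hj) j' (mem_insert_of_mem hj'))
      (fun j hj => hb j (mem_insert_of_mem hj))
    have hg0 : 0 ≤ g i := by
      by_cases hne : Nonempty (κ → Ω)
      · obtain ⟨a⟩ := hne
        exact (sum_nonneg fun v _ => mul_nonneg (hw0 v) (h0 i (mem_insert_self _ _) _)).trans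
          (hb i (mem_insert_self _ _) a)
      · exfalso
        have : IsEmpty Ω := by
          by_contra hcon
          rw [not_isEmpty_iff] at hcon
          exact hne ⟨fun _ => hcon.some⟩
        simp at hw
    have e : ∀ a : κ → Ω, ∑ v, w v * (φ i (Function.update a (c i) v) *
        ∏ j ∈ S, φ j (Function.update a (c i) v)) ≤ g i * ∏ j ∈ S, φ j a := by
      intro a
      have h1 : ∀ v, ∏ j ∈ S, φ j (Function.update a (c i) v) = ∏ j ∈ S, φ j a := by
        intro v
        refine prod_congr rfl fun j hj => hi j (mem_insert_of_mem hj) i (mem_insert_self _ _) ?_ a v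
        rintro rfl
        exact hiS hj
      simp only [h1, ← mul_assoc]
      rw [← sum_mul]
      exact mul_le_mul_of_nonneg_right (hb i (mem_insert_self _ _) a)
        (prod_nonneg fun j hj => h0 j (mem_insert_of_mem hj) a)
    refine (Ex_mono hw0 e).trans ?_
    rw [Ex_smul]
    exact mul_le_mul_of_nonneg_left hS hg0

/-- the world in which the other selected plants are erased -/
def er {s L : ℕ} (c : Fin s → Fin L) (i : Fin s) (a : Fin s × Fin L → Ω) :
    Fin s × Fin L → Option Ω := fun k => if k.1 ≠ i ∧ k.2 = c k.1 then none else some (a k)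

open Classical in
theorem q_sel {s L : ℕ} {side : Ω → Bool} (hb : ∀ c, 2 * (univ.filter (fun v => side v = c)).card =
    Fintype.card Ω) (hΩ : 0 < Fintype.card Ω) {T u x : ℝ} (hx : 1 ≤ x)
    (hu : 1 / 2 + 144 * T / Fintype.card Ω ≤ u)
    (P : Fin s × Fin L → (Fin s × Fin L → Option Ω) → ℝ) (hP : ∀ k, SmO T (P k))
    (c : Fin s → Fin L) :
    Ex (fun _ : Ω => (1 / Fintype.card Ω : ℝ)) (fun a : Fin s × Fin L → Ω =>
      x ^ (univ.filter (fun i : Fin s => Rt (1 / 12) (side (a (i, c i)))
        (P (i, c i) (er c i a)))).card) ≤ (1 + u * (x - 1)) ^ s := by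
  have hΩr : (0 : ℝ) < Fintype.card Ω := by exact_mod_cast hΩ
  let φ : Fin s → (Fin s × Fin L → Ω) → ℝ := fun i a =>
    if Rt (1 / 12) (side (a (i, c i))) (P (i, c i) (er c i a)) then x else 1
  have hpt : (fun a : Fin s × Fin L → Ω => x ^ (univ.filter (fun i : Fin s =>
      Rt (1 / 12) (side (a (i, c i))) (P (i, c i) (er c i a)))).card) =
      fun a => ∏ i ∈ (univ : Finset (Fin s)), φ i a := by
    funext a
    simp only [φ]
    rw [Finset.prod_ite, Finset.prod_const, Finset.prod_const_one, mul_one]
  rw [hpt]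
  have hw : ∑ _v : Ω, (1 / Fintype.card Ω : ℝ) = 1 := by
    rw [sum_const, card_univ, nsmul_eq_mul]
    field_simp
  refine (prod_res (fun _ => by positivity) hw (fun i => (i, c i)) φ (fun _ => 1 + u * (x - 1))
    univ (fun i _ a => ?_) ?_ ?_).trans (by rw [Finset.prod_const, Finset.card_univ,
      Fintype.card_fin])
  · simp only [φ]
    split_ifs <;> linarith
  · intro i _ i' _ hii a v
    have h1 : (i, c i) ≠ (i', c i') := fun h => hii (Prod.ext_iff.1 h).1
    have h2 : er c i (Function.update a (i', c i') v) = er c i a := by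
      funext k
      unfold er
      by_cases hk : k = (i', c i')
      · subst hk
        rw [if_pos ⟨Ne.symm hii, rfl⟩, if_pos ⟨Ne.symm hii, rfl⟩]
      · rw [Function.update_of_ne hk]
    simp only [φ]
    rw [h2, Function.update_of_ne h1]
  · intro i _ a
    have h2 : ∀ v, er c i (Function.update a (i, c i) v) =
        Function.update (er c i a) (i, c i) (some v) := by
      intro v
      funext k
      unfold er
      by_cases hk : k = (i, c i)
      · subst hk
        simp
      · rw [Function.update_of_ne hk, Function.update_of_ne hk]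
    have e : ∀ v, (1 / Fintype.card Ω : ℝ) * φ i (Function.update a (i, c i) v) =
        1 / Fintype.card Ω + (x - 1) * (1 / Fintype.card Ω) *
          (if Rt (1 / 12) (side v) (P (i, c i) (Function.update (er c i a) (i, c i) (some v)))
            then (1 : ℝ) else 0) := by
      intro v
      simp only [φ]
      rw [h2, Function.update_self]
      split_ifs <;> ring
    rw [sum_congr rfl fun v _ => e v, sum_add_distrib, hw, ← mul_sum, sum_boole]
    have h3 := blk hb (P (i, c i)) (hP _) (er c i a) (i, c i)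
    have h4 : (1 / Fintype.card Ω : ℝ) * (univ.filter (fun v => Rt (1 / 12) (side v)
        (P (i, c i) (Function.update (er c i a) (i, c i) (some v))))).card ≤ u := by
      refine le_trans ?_ hu
      refine (mul_le_mul_of_nonneg_left h3 (by positivity)).trans (le_of_eq ?_)
      field_simp
    have h5 : 0 ≤ x - 1 := by linarith
    nlinarith [mul_le_mul_of_nonneg_left h4 h5]

/-- the value changes when the other selected plants are erased -/
def BadO {s L : ℕ} (P : Fin s × Fin L → (Fin s × Fin L → Option Ω) → ℝ) (a : Fin s × Fin L → Ω)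
    (i : Fin s) (c : Fin s → Fin L) : Prop :=
  1 / 12 < |P (i, c i) (er c i a) - P (i, c i) (fun k => some (a k))|

open Classical in
theorem bad_shiftsO {s L : ℕ} [NeZero L] {T : ℝ}
    (P : Fin s × Fin L → (Fin s × Fin L → Option Ω) → ℝ) (hP : ∀ k, SmO T (P k))
    (a : Fin s × Fin L → Ω) (i : Fin s) (c : Fin s → Fin L) :
    ((univ.filter (fun t : Fin L => BadO P a i (sh i t c))).card : ℝ) ≤ 144 * T := by
  have hi : ∀ t : Fin L, sh i t c i = c i := by
    intro t
    unfold sh
    simp
  have h := hP (i, c i) (Fin L) (fun _ => 1) 1 (fun k => some (a k))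
    (fun t => er (sh i t c) i a) (fun _ => zero_le_one) zero_le_one (by
    intro k v
    rw [Finset.sum_const, nsmul_eq_mul, mul_one]
    norm_cast
    rw [Finset.card_le_one]
    have key : ∀ t, ¬ (er (sh i t c) i a k = some v ↔ (fun k => some (a k)) k = some v) →
        k.1 ≠ i ∧ k.2 = c k.1 + t := by
      intro t ht
      by_cases hk : k.1 ≠ i ∧ k.2 = sh i t c k.1
      · refine ⟨hk.1, ?_⟩
        rw [hk.2]
        unfold sh
        rw [if_neg hk.1]
      · exfalso
        apply ht
        unfold er
        rw [if_neg hk]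
    intro t ht t' ht'
    obtain ⟨_, h1⟩ := key t (Finset.mem_filter.1 ht).2
    obtain ⟨_, h2⟩ := key t' (Finset.mem_filter.1 ht').2
    rw [h1] at h2
    exact add_left_cancel h2)
  rw [mul_one] at h
  simp only [one_mul] at h
  have h2 : ((univ.filter (fun t : Fin L => BadO P a i (sh i t c))).card : ℝ) * (1 / 144) ≤ T := by
    refine le_trans ?_ h
    rw [← nsmul_eq_mul, ← Finset.sum_const]
    refine le_trans (Finset.sum_le_sum (g := fun t : Fin L =>
      (P (i, c i) (er (sh i t c) i a) - P (i, c i) (fun k => some (a k))) ^ 2) ?_)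
      (Finset.sum_le_sum_of_subset_of_nonneg (Finset.subset_univ _)
        (fun _ _ _ => sq_nonneg _))
    intro t ht
    have h3 : BadO P a i (sh i t c) := (Finset.mem_filter.1 ht).2
    unfold BadO at h3
    rw [hi t] at h3
    have h4 := pow_le_pow_left₀ (by norm_num) h3.le 2
    rw [sq_abs] at h4
    linarith
  linarith

open Classical in
theorem bad_countO {s L : ℕ} [NeZero L] {T β : ℝ}
    (P : Fin s × Fin L → (Fin s × Fin L → Option Ω) → ℝ) (hP : ∀ k, SmO T (P k))
    (hT : 144 * T ≤ β * L) (a : Fin s × Fin L → Ω) (i : Fin s) :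
    ((univ.filter (fun c : Fin s → Fin L => BadO P a i c)).card : ℝ) ≤ β * (L : ℝ) ^ s := by
  have hL : (0 : ℝ) < L := by exact_mod_cast Nat.pos_of_ne_zero (NeZero.ne L)
  set X := (univ.filter (fun c : Fin s → Fin L => BadO P a i c)).card with hX
  have h1 : ∀ t : Fin L, ∑ c : Fin s → Fin L, (if BadO P a i (sh i t c) then (1 : ℝ) else 0) =
      X := by
    intro t
    have h2 := Equiv.sum_comp (shE i t) (fun c => if BadO P a i c then (1 : ℝ) else 0)
    have h3 : ∑ c : Fin s → Fin L, (if BadO P a i c then (1 : ℝ) else 0) = X := by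
      rw [hX, Finset.sum_boole]
    rw [← h3, ← h2]
    rfl
  have h4 : (L : ℝ) * X ≤ (L : ℝ) ^ s * (144 * T) := by
    calc (L : ℝ) * X = ∑ t : Fin L, ∑ c : Fin s → Fin L,
          (if BadO P a i (sh i t c) then (1 : ℝ) else 0) := by
          rw [Finset.sum_congr rfl fun t _ => h1 t, Finset.sum_const, Finset.card_univ,
            Fintype.card_fin, nsmul_eq_mul]
      _ = ∑ c : Fin s → Fin L, ∑ t : Fin L,
          (if BadO P a i (sh i t c) then (1 : ℝ) else 0) := Finset.sum_comm
      _ ≤ ∑ _c : Fin s → Fin L, 144 * T := by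
          refine Finset.sum_le_sum fun c _ => ?_
          rw [Finset.sum_boole]
          exact bad_shiftsO P hP a i c
      _ = (L : ℝ) ^ s * (144 * T) := by
          rw [Finset.sum_const, Finset.card_univ, Fintype.card_fun, Fintype.card_fin,
            Fintype.card_fin, nsmul_eq_mul]
          push_cast
          ring
  have h5 : (L : ℝ) * X ≤ L * (β * (L : ℝ) ^ s) := by
    have h6 : (0 : ℝ) ≤ (L : ℝ) ^ s := by positivity
    nlinarith [mul_le_mul_of_nonneg_left hT h6]
  exact le_of_mul_le_mul_left h5 hL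

open Classical in
/-- **The direct product bound.** -/
theorem dpO {s L : ℕ} {side : Ω → Bool} (hb : ∀ c, 2 * (univ.filter (fun v => side v = c)).card =
    Fintype.card Ω) (hΩ : 0 < Fintype.card Ω) {T u β d γ : ℝ}
    (hu : 1 / 2 + 144 * T / Fintype.card Ω ≤ u) (hT : 0 ≤ T) (hu1 : u ≤ 1) (hL : 1 ≤ L)
    (hTL : 144 * T ≤ β * L) (hd0 : 0 ≤ d) (hd1 : d ≤ 1) (hγ : u + β + d ≤ γ)
    (P : Fin s × Fin L → (Fin s × Fin L → Option Ω) → ℝ) (hP : ∀ k, SmO T (P k)) :
    Ex (fun _ : Ω => (1 / Fintype.card Ω : ℝ)) (fun a : Fin s × Fin L → Ω =>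
      if γ * (s * L) ≤ ((univ.filter (fun k => Rt (1 / 6) (side (a k))
        (P k (fun k => some (a k))))).card : ℝ) then (1 : ℝ) else 0) ≤
      Real.exp (-(d ^ 2 / 4 * s)) := by
  haveI : NeZero L := ⟨by omega⟩
  have hL0 : (0 : ℝ) < L := by exact_mod_cast hL
  have hΩr : (0 : ℝ) < Fintype.card Ω := by exact_mod_cast hΩ
  set wt : Ω → ℝ := fun _ => (1 / Fintype.card Ω : ℝ) with hwt
  have hw0 : ∀ v, 0 ≤ wt v := fun v => by simp only [hwt]; positivity
  set t : ℝ := d / 2 with ht
  have ht0 : 0 ≤ t := by linarith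
  have ht1 : t ≤ 1 := by linarith
  set x : ℝ := Real.exp t with hx
  have hx1 : 1 ≤ x := Real.one_le_exp ht0
  set g : (Fin s → Fin L) → (Fin s × Fin L → Ω) → ℕ := fun c a =>
    (univ.filter (fun i : Fin s => Rt (1 / 12) (side (a (i, c i)))
        (P (i, c i) (er c i a)))).card with hg
  set K : (Fin s × Fin L → Ω) → Finset (Fin s × Fin L) := fun a =>
    univ.filter (fun k => Rt (1 / 6) (side (a k)) (P k (fun k => some (a k)))) with hK
  set E : (Fin s × Fin L → Ω) → ℝ := fun a =>
    if γ * (s * L) ≤ ((K a).card : ℝ) then (1 : ℝ) else 0 with hE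
  have hN : (Fintype.card (Fin s → Fin L) : ℝ) = (L:ℝ) ^ s := by
    rw [Fintype.card_fun, Fintype.card_fin, Fintype.card_fin]
    push_cast
    rfl
  have hsel : ∀ c : Fin s → Fin L, Ex wt (fun a => x ^ g c a) ≤ (1 + u * (x - 1)) ^ s :=
    fun c => q_sel hb hΩ hx1 hu P hP c
  have hpt : ∀ a, Real.exp (t * ((γ - β) * s)) * (L:ℝ) ^ s * E a ≤
      ∑ c : Fin s → Fin L, x ^ g c a := by
    intro a
    by_cases h : γ * (s * L) ≤ ((K a).card : ℝ)
    · have hE1 : E a = 1 := by simp only [hE]; rw [if_pos h]
      rw [hE1, mul_one]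
      -- the solved ones which are not bad are approximately right
      have h1 : ∀ c : Fin s → Fin L,
          ∑ i : Fin s, (if (i, c i) ∈ K a then (1 : ℝ) else 0) ≤ g c a +
          ∑ i : Fin s, (if BadO P a i c then (1 : ℝ) else 0) := by
        intro c
        have h2 : ∀ i : Fin s, (if (i, c i) ∈ K a then (1 : ℝ) else 0) ≤
            (if Rt (1 / 12) (side (a (i, c i))) (P (i, c i) (er c i a)) then (1 : ℝ) else 0) +
            (if BadO P a i c then (1 : ℝ) else 0) := by
          intro i
          by_cases hk : (i, c i) ∈ K a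
          swap
          · rw [if_neg hk]
            split_ifs <;> norm_num
          rw [if_pos hk]
          have hr : Rt (1 / 6) (side (a (i, c i))) (P (i, c i) (fun k => some (a k))) :=
            (mem_filter.1 hk).2
          by_cases hb : BadO P a i c
          · rw [if_pos hb]
            split_ifs <;> norm_num
          · rw [if_neg hb, if_pos, add_zero]
            unfold BadO at hb
            rw [not_lt, abs_le] at hb
            refine ⟨fun hh => ?_, fun hh => ?_⟩
            · have h3 := hr.1 hh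
              linarith [hb.1]
            · have h3 := hr.2 hh
              linarith [hb.2]
        have h3 := Finset.sum_le_sum (fun i (_ : i ∈ (univ : Finset (Fin s))) => h2 i)
        rw [Finset.sum_add_distrib] at h3
        refine h3.trans (le_of_eq ?_)
        rw [Finset.sum_boole]
      have h4 : ∑ c : Fin s → Fin L, ∑ i : Fin s, (if BadO P a i c then (1 : ℝ) else 0) ≤
          β * s * (L : ℝ) ^ s := by
        rw [Finset.sum_comm]
        have h5 : ∀ i : Fin s, ∑ c : Fin s → Fin L, (if BadO P a i c then (1 : ℝ) else 0) ≤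
            β * (L : ℝ) ^ s := by
          intro i
          rw [Finset.sum_boole]
          exact bad_countO P hP hTL a i
        refine (Finset.sum_le_sum fun i _ => h5 i).trans ?_
        rw [Finset.sum_const, Finset.card_univ, Fintype.card_fin, nsmul_eq_mul]
        apply le_of_eq
        ring
      have h5 : (L : ℝ) * ∑ c : Fin s → Fin L, ∑ i : Fin s,
          (if (i, c i) ∈ K a then (1 : ℝ) else 0) = ((K a).card : ℝ) * (L : ℝ) ^ s := by
        rw [Finset.sum_comm]
        have h6 : ∀ i : Fin s, (L : ℝ) * ∑ c : Fin s → Fin L,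
            (if (i, c i) ∈ K a then (1 : ℝ) else 0) =
            (L : ℝ) ^ s * ∑ r : Fin L, (if (i, r) ∈ K a then (1 : ℝ) else 0) := by
          intro i
          have h7 : ∀ c : Fin s → Fin L, (if (i, c i) ∈ K a then (1 : ℝ) else 0) =
              ∑ r : Fin L, (if c i = r then (1 : ℝ) else 0) *
                (if (i, r) ∈ K a then (1 : ℝ) else 0) := by
            intro c
            rw [Finset.sum_eq_single (c i)]
            · simp
            · intro r _ hr
              rw [if_neg (Ne.symm hr), zero_mul]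
            · simp
          rw [Finset.sum_congr rfl fun c _ => h7 c, Finset.sum_comm, Finset.mul_sum,
            Finset.mul_sum]
          refine Finset.sum_congr rfl fun r _ => ?_
          rw [← Finset.sum_mul, Finset.sum_boole, ← mul_assoc]
          congr 1
          have h8 : (univ.filter (fun c : Fin s → Fin L => c i = r)).card * L = L ^ s := by
            have hc := Fintype.card_filter_piFinset_const_eq_of_mem (univ : Finset (Fin L)) i
              (Finset.mem_univ r)
            simp only [Fintype.piFinset_univ, Finset.card_univ, Fintype.card_fin] at hc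
            rw [hc, ← pow_succ]
            congr 1
            have := i.2
            omega
          have h9 : ((univ.filter (fun c : Fin s → Fin L => c i = r)).card : ℝ) * L =
              (L : ℝ) ^ s := by exact_mod_cast h8
          linarith
        rw [Finset.mul_sum, Finset.sum_congr rfl fun i _ => h6 i, ← Finset.mul_sum,
          ← Fintype.sum_prod_type (fun k : Fin s × Fin L => if k ∈ K a then (1 : ℝ) else 0),
          Finset.sum_boole, mul_comm]
        congr 2
        simp
      have h6 : (γ - β) * s * (L:ℝ) ^ s ≤ ∑ c : Fin s → Fin L, (g c a : ℝ) := by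
        have h7 := Finset.sum_le_sum (fun c (_ : c ∈ (univ : Finset (Fin s → Fin L))) => h1 c)
        rw [Finset.sum_add_distrib] at h7
        have h8 : γ * s * (L : ℝ) ^ s ≤ ∑ c : Fin s → Fin L, ∑ i : Fin s,
          (if (i, c i) ∈ K a then (1 : ℝ) else 0) := by
          have hLs : (0 : ℝ) ≤ (L : ℝ) ^ s := by positivity
          have h9 : (L : ℝ) * (γ * s * (L : ℝ) ^ s) ≤ L * ∑ c : Fin s → Fin L, ∑ i : Fin s,
            (if (i, c i) ∈ K a then (1 : ℝ) else 0) := by
            rw [h5]
            nlinarith [mul_le_mul_of_nonneg_right h hLs]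
          exact le_of_mul_le_mul_left h9 hL0
        linarith
      have h9 : ∀ c, Real.exp (t * ((γ - β) * s)) * (1 + t * ((g c a : ℝ) - (γ - β) * s)) ≤
          x ^ g c a := fun c => tangent_exp _ _ _
      refine le_trans ?_ (Finset.sum_le_sum fun c _ => h9 c)
      rw [← Finset.mul_sum, Finset.sum_add_distrib, Finset.sum_const, nsmul_eq_mul,
        Finset.card_univ, hN, ← Finset.mul_sum, Finset.sum_sub_distrib, Finset.sum_const,
        nsmul_eq_mul, Finset.card_univ, hN]
      apply mul_le_mul_of_nonneg_left _ (Real.exp_nonneg _)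
      have : 0 ≤ t * (∑ c : Fin s → Fin L, (g c a : ℝ) - (L : ℝ) ^ s * ((γ - β) * s)) := by
        apply mul_nonneg ht0
        linarith
      linarith
    · have hE0 : E a = 0 := by simp only [hE]; rw [if_neg h]
      rw [hE0, mul_zero]
      exact Finset.sum_nonneg fun c _ => by positivity
  have h1 : Ex wt (fun a => Real.exp (t * ((γ - β) * s)) * (L:ℝ) ^ s * E a) ≤
      Ex wt (fun a => ∑ c : Fin s → Fin L, x ^ g c a) := Ex_mono hw0 hpt
  rw [Ex_smul, Ex_sum] at h1
  have h2 : ∑ c : Fin s → Fin L, Ex wt (fun a => x ^ g c a) ≤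
      (L:ℝ) ^ s * (1 + u * (x - 1)) ^ s := by
    calc ∑ c : Fin s → Fin L, Ex wt (fun a => x ^ g c a) ≤
          ∑ _c : Fin s → Fin L, (1 + u * (x - 1)) ^ s := Finset.sum_le_sum fun c _ => hsel c
      _ = (L:ℝ) ^ s * (1 + u * (x - 1)) ^ s := by
        rw [Finset.sum_const, nsmul_eq_mul, Finset.card_univ, hN]
  have h3 := h1.trans h2
  have hLs : (0:ℝ) < (L:ℝ) ^ s := by positivity
  have h4 : Real.exp (t * ((γ - β) * s)) * Ex wt E ≤ (1 + u * (x - 1)) ^ s := by
    have h5 : (L:ℝ) ^ s * (Real.exp (t * ((γ - β) * s)) * Ex wt E) ≤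
        (L:ℝ) ^ s * (1 + u * (x - 1)) ^ s := by
      calc _ = Real.exp (t * ((γ - β) * s)) * (L:ℝ) ^ s * Ex wt E := by ring
        _ ≤ _ := h3
    exact le_of_mul_le_mul_left h5 hLs
  have hu0 : 0 ≤ u := by
    refine le_trans ?_ hu
    positivity
  have h5 : (1 + u * (x - 1)) ^ s ≤ Real.exp (t * ((γ - β) * s)) * Real.exp (-(d ^ 2 / 4 * s)) := by
    have hx2 : x - 1 ≤ t + t ^ 2 := by
      have := exp_le_quad ht0 ht1
      linarith
    have h6 : 1 + u * (x - 1) ≤ Real.exp (u * (x - 1)) := by
      have := Real.add_one_le_exp (u * (x - 1))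
      linarith
    have h7 : 0 ≤ 1 + u * (x - 1) := by
      have : 0 ≤ u * (x - 1) := mul_nonneg hu0 (by linarith)
      linarith
    refine (pow_le_pow_left₀ h7 h6 s).trans ?_
    rw [← Real.exp_nat_mul, ← Real.exp_add]
    apply Real.exp_le_exp.2
    have hs0 : (0 : ℝ) ≤ s := Nat.cast_nonneg _
    have h8 : u * (x - 1) ≤ t * (γ - β) - d ^ 2 / 4 := by
      have h9 : u * (x - 1) ≤ u * (t + t ^ 2) := mul_le_mul_of_nonneg_left hx2 hu0
      have h10 : u * t ^ 2 ≤ t ^ 2 := by nlinarith [sq_nonneg t]
      have h11 : t * (u + d) ≤ t * (γ - β) := mul_le_mul_of_nonneg_left (by linarith) ht0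
      have h12 : t ^ 2 = d ^ 2 / 4 := by rw [ht]; ring
      have h13 : t * d = d ^ 2 / 2 := by rw [ht]; ring
      nlinarith
    nlinarith [mul_le_mul_of_nonneg_left h8 hs0]
  exact le_of_mul_le_mul_left (h4.trans h5) (Real.exp_pos _)

/-- There are plants which are hard for all the given functions. -/
def HardP (κ Ω : Type) [Fintype κ] [DecidableEq Ω] (side : Ω → Bool) (T : ℝ) (M : ℕ)
    (γ : ℝ) : Prop :=
  ∀ (H : Type) [Fintype H] (P : H → κ → (κ → Option Ω) → ℝ), Fintype.card H ≤ M →
    (∀ h k, SmO T (P h k)) → ∃ a : κ → Ω, ∀ h : H,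
      ({k | Rt (1 / 6) (side (a k)) (P h k (fun k => some (a k)))}.ncard : ℝ) <
        γ * Fintype.card κ

theorem hardP_dp {s L : ℕ} {side : Ω → Bool} (hb : ∀ c,
    2 * (univ.filter (fun v => side v = c)).card =
    Fintype.card Ω) (hΩ : 0 < Fintype.card Ω) {T u β d γ : ℝ}
    (hu : 1 / 2 + 144 * T / Fintype.card Ω ≤ u) (hT : 0 ≤ T) (hu1 : u ≤ 1) (hL : 1 ≤ L)
    (hTL : 144 * T ≤ β * L) (hd0 : 0 ≤ d) (hd1 : d ≤ 1) (hγ : u + β + d ≤ γ) {M : ℕ}
    (hM : M * Real.exp (-(d ^ 2 / 4 * s)) < 1) :
    HardP (Fin s × Fin L) Ω side T M γ := by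
  classical
  intro H _ P hH hP
  by_contra hcon
  push Not at hcon
  have hΩr : (0 : ℝ) < Fintype.card Ω := by exact_mod_cast hΩ
  set wt : Ω → ℝ := fun _ => (1 / Fintype.card Ω : ℝ) with hwt
  have hw0 : ∀ v, 0 ≤ wt v := fun v => by simp only [hwt]; positivity
  have hw : ∑ v : Ω, wt v = 1 := by
    simp only [hwt]
    rw [sum_const, card_univ, nsmul_eq_mul]
    field_simp
  have h1 : ∀ h : H, Ex wt (fun a : Fin s × Fin L → Ω =>
      if γ * (s * L) ≤ ((univ.filter (fun k => Rt (1 / 6) (side (a k))
        (P h k (fun k => some (a k))))).card : ℝ) then (1 : ℝ) else 0) ≤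
      Real.exp (-(d ^ 2 / 4 * s)) := fun h =>
    dpO hb hΩ hu hT hu1 hL hTL hd0 hd1 hγ (P h) (hP h)
  have h2 : (1 : ℝ) ≤ ∑ h : H, Ex wt (fun a : Fin s × Fin L → Ω =>
      if γ * (s * L) ≤ ((univ.filter (fun k => Rt (1 / 6) (side (a k))
        (P h k (fun k => some (a k))))).card : ℝ) then (1 : ℝ) else 0) := by
    rw [← Ex_sum]
    refine (Ex_const (I := Fin s × Fin L) hw 1).symm.le.trans (Ex_mono hw0 fun a => ?_)
    obtain ⟨h, hh⟩ := hcon a
    refine le_trans ?_ (single_le_sum (f := fun h => if γ * (s * L) ≤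
      ((univ.filter (fun k => Rt (1 / 6) (side (a k))
        (P h k (fun k => some (a k))))).card : ℝ) then (1 : ℝ) else 0)
      (fun h _ => by positivity) (mem_univ h))
    rw [if_pos]
    have e : {k | Rt (1 / 6) (side (a k)) (P h k (fun k => some (a k)))} =
        ((univ.filter (fun k => Rt (1 / 6) (side (a k)) (P h k (fun k => some (a k)))) :
          Finset _) : Set (Fin s × Fin L)) := by
      ext k
      simp
    rw [e, Set.ncard_coe_finset] at hh
    refine le_trans (le_of_eq ?_) hh
    simp
  have h3 := h2.trans (sum_le_sum fun h _ => h1 h)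
  rw [sum_const, card_univ, nsmul_eq_mul] at h3
  have h4 : (Fintype.card H : ℝ) ≤ M := by exact_mod_cast hH
  have h5 := mul_le_mul_of_nonneg_right h4 (Real.exp_nonneg (-(d ^ 2 / 4 * s)))
  linarith

theorem Rt.mono {t t' : ℝ} (h : t' ≤ t) {c : Bool} {v : ℝ} (hv : Rt t c v) : Rt t' c v :=
  ⟨fun hc => by have := hv.1 hc; linarith, fun hc => by have := hv.2 hc; linarith⟩

/-- a single plant -/
theorem hardP_one {side : Ω → Bool} (hb : ∀ c,
    2 * (univ.filter (fun v => side v = c)).card = Fintype.card Ω) (hΩ : 0 < Fintype.card Ω) {T : ℝ}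
    (hu : 288 * T < Fintype.card Ω) {γ : ℝ} (hγ : 0 < γ) : HardP Unit Ω side T 1 γ := by
  classical
  intro H _ P hH hP
  rcases isEmpty_or_nonempty H with hE | ⟨⟨h₀⟩⟩
  · obtain ⟨v⟩ := Fintype.card_pos_iff.1 hΩ
    exact ⟨fun _ => v, fun h => hE.elim h⟩
  · have h1 := blk hb (P h₀ ()) (hP h₀ ()) (fun _ => none) ()
    have h2 : ∃ v, ¬ Rt (1 / 12) (side v)
        (P h₀ () (Function.update (fun _ => none) () (some v))) := by
      by_contra hcon
      push Not at hcon
      rw [filter_true_of_mem fun v _ => hcon v, card_univ] at h1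
      linarith
    obtain ⟨v, hv⟩ := h2
    refine ⟨fun _ => v, fun h => ?_⟩
    have hh : h = h₀ := (Fintype.card_le_one_iff.1 hH) h h₀
    subst hh
    have h3 : (Function.update (fun _ => none) () (some v) : Unit → Option Ω) =
        fun _ => some v := by
      funext k
      simp
    rw [h3] at hv
    have h4 : {k : Unit | Rt (1 / 6) (side v) (P h k (fun _ => some v))} = ∅ := by
      ext k
      simp only [Set.mem_ofPred_eq, Set.mem_empty_iff_false, iff_false]
      intro hk
      exact hv (hk.mono (by norm_num))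
    rw [h4, Set.ncard_empty]
    simpa using hγ

end Pool.Agent.Helper11x.SP
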