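import Pool.Agent.Helper11x.SP.Room
import Pool.Agent.Helper11x.SP.Conv

/-!
# Sparse oracles and complete disjoint `NP` pairs
-/

set_option autoImplicit false

namespace Pool.Agent.Helper11x.SP

open Finset Filter Pool.Agent.NPC Pool.Agent.H620R2.Gauge Pool.Agent.TH678.GC Pool.Agent.HM13.PC
  Pool.Agent.H622R2
open Pool.Agent.H9x.Q (QFamily)

/-- the algorithm with the additional oracle -/
noncomputable def liftA (M : Alg) : Alg where
  D := fun y => if (M.D y).head? = some false then false :: M.D y else M.D y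
  poly := polyTime_of_poly_list (Poly.ite (Poly.decide_eq (Poly.head? (poly_of_polyTime M.poly))
    (NPC.Poly.const _)) (Poly.cons (NPC.Poly.const false) (poly_of_polyTime M.poly))
    (poly_of_polyTime M.poly))
  p := M.p

theorem liftA_run (M : Alg) (A T : Oracle) (x : List Bool) : ∀ (n : ℕ) (a : List Bool),
    (liftA M).run (join A T) x n a = M.run A x n a := by
  intro n
  induction n with
  | zero => intro a; rfl
  | succ n ih =>
    intro a
    have hD : (liftA M).D (pairBits x a) = if (M.D (pairBits x a)).head? = some false then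
        false :: M.D (pairBits x a) else M.D (pairBits x a) := rfl
    rcases hq : M.D (pairBits x a) with _ | ⟨c, q⟩
    · rw [hq] at hD
      simp only [Alg.run, hD, hq]
      simp
    · cases c with
      | true =>
        rw [hq] at hD
        simp only [Alg.run, hD, hq]
        simp
      | false =>
        rw [hq] at hD
        simp only [Alg.run, hD, hq]
        simp only [List.head?_cons, if_true]
        exact ih _

theorem fp_lift {A T : Oracle} {f : List Bool → List Bool} (hf : IsFP A f) :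
    IsFP (join A T) f := by
  obtain ⟨M, hM⟩ := hf
  refine ⟨liftA M, fun x => ?_⟩
  unfold Alg.out
  rw [liftA_run]
  exact hM x

theorem fp_ask {A T : Oracle} {f : List Bool → List Bool} (hf : IsFP A f) :
    IsFP (join A T) (fun y => [T (f y)]) := by
  have h1 : IsFP (join A T) (fun z => [join A T (true :: z)]) :=
    TH678.WP.isFP_ask' (join A T) (Poly.cons (NPC.Poly.const true) Poly.id)
  exact IsFP.comp h1 (fp_lift hf)

theorem np_alg {A : Oracle} {L : Set (List Bool)} (h : IsNP A L) :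
    ∃ (M : Alg) (p : Polynomial ℕ), ∀ y, y ∈ L ↔ Acc A M p y := by
  obtain ⟨V, p, ⟨M, hM⟩, h⟩ := h
  refine ⟨M, p, fun y => ?_⟩
  rw [h y]
  unfold HM13.PC.Acc Ans
  simp only [hM, Option.some.injEq]

theorem np_of_up {A : Oracle} {L : Set (List Bool)} (h : IsUP A L) : IsNP A L := by
  obtain ⟨V, p, h1, h2, _⟩ := h
  exact ⟨V, p, h1, h2⟩

theorem fin_len (n : ℕ) (X : List Bool → Prop) : {x : List Bool | x.length = n ∧ X x}.Finite :=
  (List.finite_length_le Bool n).subset fun _ h => h.1.le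

/-- the conclusion of the construction -/
def Wrld (P : Polynomial ℕ → Prop) (γ : ℕ → ℝ) (A : Oracle) : Prop :=
  ∀ c : Pres, c.cls.Hold A →
      ∃ T : Oracle, (∀ y, c.cls.Sep A y (T y)) ∧ ∃ U V : Set (List Bool),
        IsUP A U ∧ IsUP A V ∧ Disjoint U V ∧
        ∀ (F : Slv) (pa : Polynomial ℕ), P pa → ∀ k n₀ : ℕ, ∃ ℓ ≥ n₀, ∀ h : List Bool,
          h.length ≤ pa.eval ℓ →
          ({x : List Bool | x.length = ℓ ∧
            Rgt U V x (F.val (join A T) x h)}.ncard : ℝ) <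
          γ k * ({x : List Bool | x.length = ℓ ∧ (x ∈ U ∨ x ∈ V)}.ncard : ℝ)

theorem Wrld.pair {P : Polynomial ℕ → Prop} {γ : ℕ → ℝ} {A : Oracle} (h : Wrld P γ A)
    {X Y : Set (List Bool)} (hXY : IsPair A X Y) : ∃ T : Oracle, (∀ x ∈ X, T x = true) ∧
      (∀ x ∈ Y, T x = false) ∧ ∃ U V : Set (List Bool), IsUP A U ∧ IsUP A V ∧ Disjoint U V ∧
        ∀ (F : Slv) (pa : Polynomial ℕ), P pa → ∀ k n₀ : ℕ, ∃ ℓ ≥ n₀, ∀ h : List Bool,
          h.length ≤ pa.eval ℓ →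
          ({x : List Bool | x.length = ℓ ∧
            Rgt U V x (F.val (join A T) x h)}.ncard : ℝ) <
          γ k * ({x : List Bool | x.length = ℓ ∧ (x ∈ U ∨ x ∈ V)}.ncard : ℝ) := by
  obtain ⟨M₁, p₁, h1⟩ := np_alg hXY.1
  obtain ⟨M₂, p₂, h2⟩ := np_alg hXY.2.1
  obtain ⟨T, hT, U, V, hU, hV, hd, hF⟩ := h (M₁, M₂, p₁, p₂) (fun y hy =>
    Set.disjoint_left.1 hXY.2.2 ((h1 y).2 hy.1) ((h2 y).2 hy.2))
  refine ⟨T, fun x hx => ?_, fun x hx => ?_, U, V, hU, hV, hd, hF⟩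
  · by_contra hne
    have h3 : T x = false := by simpa using hne
    exact (hT x).2 h3 ((h1 x).1 hx)
  · by_contra hne
    have h3 : T x = true := by simpa using hne
    exact (hT x).1 h3 ((h2 x).1 hx)

/-- no reduction -/
theorem Wrld.no_red {P : Polynomial ℕ → Prop} {γ : ℕ → ℝ} {A T : Oracle}
    {X Y U V : Set (List Bool)} (hT1 : ∀ x ∈ X, T x = true) (hT2 : ∀ x ∈ Y, T x = false)
    {f : List Bool → List Bool} (hf : IsFP A f) {pa : Polynomial ℕ} {h : ℕ → List Bool}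
    (hh : ∀ n, (h n).length ≤ pa.eval n) (h1 : ∀ x ∈ U, f (pairBits x (h x.length)) ∈ X)
    (h2 : ∀ x ∈ V, f (pairBits x (h x.length)) ∈ Y) (hpa : P pa) {k : ℕ} (hγ : γ k ≤ 1)
    (hF : ∀ (F : Slv) (pa : Polynomial ℕ), P pa → ∀ k n₀ : ℕ, ∃ ℓ ≥ n₀, ∀ h : List Bool,
          h.length ≤ pa.eval ℓ →
          ({x : List Bool | x.length = ℓ ∧
            Rgt U V x (F.val (join A T) x h)}.ncard : ℝ) <
          γ k * ({x : List Bool | x.length = ℓ ∧ (x ∈ U ∨ x ∈ V)}.ncard : ℝ)) : False := by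
  obtain ⟨M, hM⟩ := fp_ask (T := T) hf
  obtain ⟨ℓ, _, hℓ⟩ := hF (Sum.inr M) pa hpa k 0
  have h3 := hℓ (h ℓ) (hh ℓ)
  have h4 : {x : List Bool | x.length = ℓ ∧ (x ∈ U ∨ x ∈ V)} ⊆
      {x : List Bool | x.length = ℓ ∧ Rgt U V x (Slv.val (Sum.inr M) (join A T) x (h ℓ))} := by
    rintro x ⟨hx, hUV⟩
    refine ⟨hx, ?_⟩
    subst hx
    rcases hUV with hU | hV
    · refine Or.inl ⟨hU, ?_⟩
      have h5 : Slv.val (Sum.inr M) (join A T) x (h x.length) = 1 := by
        show (if _ then (1 : ℝ) else 0) = 1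
        rw [if_pos]
        rw [hM]
        show some [T (f (pairBits x (h x.length)))] = some [true]
        rw [hT1 _ (h1 x hU)]
      rw [h5]
      norm_num
    · refine Or.inr ⟨hV, ?_⟩
      have h5 : Slv.val (Sum.inr M) (join A T) x (h x.length) = 0 := by
        show (if _ then (1 : ℝ) else 0) = 0
        rw [if_neg]
        rw [hM]
        show ¬ some [T (f (pairBits x (h x.length)))] = some [true]
        rw [hT2 _ (h2 x hV)]
        simp
      rw [h5]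
      norm_num
  have h5 := Set.ncard_le_ncard h4 (fin_len ℓ _)
  have h6 : (({x : List Bool | x.length = ℓ ∧ (x ∈ U ∨ x ∈ V)}.ncard : ℕ) : ℝ) ≤
      (({x : List Bool | x.length = ℓ ∧ Rgt U V x
        (Slv.val (Sum.inr M) (join A T) x (h ℓ))}.ncard : ℕ) : ℝ) := by exact_mod_cast h5
  have h7 : (0 : ℝ) ≤ ({x : List Bool | x.length = ℓ ∧ (x ∈ U ∨ x ∈ V)}.ncard : ℝ) :=
    Nat.cast_nonneg _
  nlinarith

/-- **Unbounded sparseness.** -/
theorem main_uniform {g : ℕ → ℕ} (hg : Monotone g) (hu : ∀ c, ∃ n, c < g n) (B : Oracle) :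
    ∃ S : Oracle, Sparse g S ∧ (¬ ∃ P Q, Complete (join B S) P Q) ∧
      NoneHard (fun A U V => ∃ γ : ℝ, 0 < γ ∧ SepBQP γ A U V) (join B S) := by
  obtain ⟨S, hS, hW⟩ := exists_world hg (γ := fun k => 1 / ((k : ℝ) + 1)) (P := fun pa => pa = 0)
    ⟨0, rfl⟩ (by
      rintro pa rfl k
      exact room_one hg hu (by positivity)) B
  have hW' : Wrld (fun pa => pa = 0) (fun k => 1 / ((k : ℝ) + 1)) (join B S) := hW
  refine ⟨S, hS, ?_, fun P Q hPQ => ?_⟩
  · rintro ⟨P, Q, hPQ, hc⟩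
    obtain ⟨T, hT1, hT2, U, V, hU, hV, hd, hF⟩ := hW'.pair hPQ
    obtain ⟨f, hf, h1, h2⟩ := hc U V ⟨np_of_up hU, np_of_up hV, hd⟩
    have hf' : IsFP (join B S) (fun y => f (unpair y).1) :=
      IsFP.comp hf (IsFP.of_poly (Poly.fst poly_unpair))
    refine Wrld.no_red (P := fun pa => pa = 0) (γ := fun k => 1 / ((k : ℝ) + 1)) hT1 hT2 hf'
      (pa := 0) (h := fun _ => []) (fun n => by simp) (fun x hx => ?_) (fun x hx => ?_) rfl
      (k := 0) (by norm_num) hF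
    · rw [unpair_pairBits]
      exact h1 x hx
    · rw [unpair_pairBits]
      exact h2 x hx
  · obtain ⟨T, hT1, hT2, U, V, hU, hV, hd, hF⟩ := hW'.pair hPQ
    refine ⟨T, hT1, hT2, U, V, hU, hV, hd, ?_⟩
    rintro ⟨γ, hγ, F, hFs⟩
    obtain ⟨n₀, hn₀⟩ := eventually_atTop.1 hFs
    obtain ⟨k, hk⟩ := exists_nat_one_div_lt hγ
    obtain ⟨ℓ, hℓ, h3⟩ := hF (Sum.inl F) 0 rfl k n₀
    have h4 := h3 [] (by simp)
    have h5 := hn₀ ℓ hℓ
    have h6 : (0 : ℝ) ≤ ({x : List Bool | x.length = ℓ ∧ (x ∈ U ∨ x ∈ V)}.ncard : ℝ) :=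
      Nat.cast_nonneg _
    have h7 : ({x : List Bool | x.length = ℓ ∧
        RightOn F (join (join B S) T) U V x []}.ncard : ℝ) < 1 / ((k : ℝ) + 1) *
        ({x : List Bool | x.length = ℓ ∧ (x ∈ U ∨ x ∈ V)}.ncard : ℝ) := h4
    nlinarith [mul_le_mul_of_nonneg_right hk.le h6]

/-- **Superpolynomial sparseness.** -/
theorem main_poly {g : ℕ → ℕ} (hg : Monotone g) (hu : ∀ p : Polynomial ℕ, ∃ n, p.eval n < g n)
    (B : Oracle) :
    ∃ S : Oracle, Sparse g S ∧ (¬ ∃ P Q, CompletePoly (join B S) P Q) ∧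
      NoneHard (fun A U V => ∃ γ : ℝ, 1 / 2 < γ ∧ SepBQPpoly γ A U V) (join B S) := by
  obtain ⟨S, hS, hW⟩ := exists_world hg (γ := fun k => 1 / 2 + 1 / 2 * (1 / ((k : ℝ) + 1)))
    (P := fun _ => True) ⟨0, trivial⟩ (by
      intro pa _ k
      have h1 : (0 : ℝ) < 1 / ((k : ℝ) + 1) := by positivity
      have h2 : 1 / ((k : ℝ) + 1) ≤ 1 := by
        rw [div_le_one (by positivity)]
        have : (0 : ℝ) ≤ k := Nat.cast_nonneg _
        linarith
      exact room_many hg hu (by linarith) (by linarith) pa) B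
  have hW' : Wrld (fun _ => True) (fun k => 1 / 2 + 1 / 2 * (1 / ((k : ℝ) + 1))) (join B S) := hW
  refine ⟨S, hS, ?_, fun P Q hPQ => ?_⟩
  · rintro ⟨P, Q, hPQ, hc⟩
    obtain ⟨T, hT1, hT2, U, V, hU, hV, hd, hF⟩ := hW'.pair hPQ
    obtain ⟨f, p, h, hf, hh, h1, h2⟩ := hc U V ⟨np_of_up hU, np_of_up hV, hd⟩
    exact Wrld.no_red (P := fun _ => True) (γ := fun k => 1 / 2 + 1 / 2 * (1 / ((k : ℝ) + 1)))
      hT1 hT2 hf hh h1 h2 trivial (k := 0) (by norm_num) hF
  · obtain ⟨T, hT1, hT2, U, V, hU, hV, hd, hF⟩ := hW'.pair hPQ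
    refine ⟨T, hT1, hT2, U, V, hU, hV, hd, ?_⟩
    rintro ⟨γ, hγ, F, p, h, hh, hFs⟩
    obtain ⟨n₀, hn₀⟩ := eventually_atTop.1 hFs
    obtain ⟨k, hk⟩ := exists_nat_one_div_lt (show 0 < γ - 1 / 2 by linarith)
    obtain ⟨ℓ, hℓ, h3⟩ := hF (Sum.inl F) p trivial k n₀
    have h4 := h3 (h ℓ) (hh ℓ)
    have h5 := hn₀ ℓ hℓ
    have h6 : (0 : ℝ) ≤ ({x : List Bool | x.length = ℓ ∧ (x ∈ U ∨ x ∈ V)}.ncard : ℝ) :=
      Nat.cast_nonneg _
    have h7 : ({x : List Bool | x.length = ℓ ∧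
        RightOn F (join (join B S) T) U V x (h ℓ)}.ncard : ℝ) <
        (1 / 2 + 1 / 2 * (1 / ((k : ℝ) + 1))) *
        ({x : List Bool | x.length = ℓ ∧ (x ∈ U ∨ x ∈ V)}.ncard : ℝ) := h4
    have h8 : 1 / 2 + 1 / 2 * (1 / ((k : ℝ) + 1)) ≤ γ := by
      have : (0 : ℝ) < 1 / ((k : ℝ) + 1) := by positivity
      linarith
    nlinarith [mul_le_mul_of_nonneg_right h8 h6]

end Pool.Agent.Helper11x.SP
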