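import Pool.Agent.Helper11x.SP.World
import Pool.Agent.Helper11x.QG.Bal
import Pool.Agent.H622R2.Exp.E0

/-!
# Room for plants
-/

set_option autoImplicit false

namespace Pool.Agent.Helper11x.SP

open Finset Filter Pool.Agent.NPC Pool.Agent.H620R2.Gauge Pool.Agent.Helper11x.QG
open Pool.Agent.H622R2.Exp.E0 (poly_le)

theorem card_Om (ℓ : ℕ) : Fintype.card (Bool × Fin (2 ^ ℓ)) = 2 * 2 ^ ℓ := by
  rw [Fintype.card_prod, Fintype.card_bool, Fintype.card_fin]

open Classical in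
theorem side_Om (ℓ : ℕ) (c : Bool) :
    2 * (univ.filter (fun v : Bool × Fin (2 ^ ℓ) => Prod.fst v = c)).card =
      Fintype.card (Bool × Fin (2 ^ ℓ)) := by
  rw [card_Om]
  congr 1
  have h : univ.filter (fun v : Bool × Fin (2 ^ ℓ) => Prod.fst v = c) =
      univ.image (fun j : Fin (2 ^ ℓ) => (c, j)) := by
    ext v
    rw [mem_filter, mem_image]
    constructor
    · rintro ⟨_, rfl⟩
      exact ⟨v.2, mem_univ _, rfl⟩
    · rintro ⟨j, _, rfl⟩
      exact ⟨mem_univ _, rfl⟩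
  rw [h, card_image_of_injective _ (fun a b h => (Prod.mk.inj h).2), card_univ, Fintype.card_fin]

/-- one plant is enough against a single circuit -/
theorem room_one {g : ℕ → ℕ} (hg : Monotone g) (hu : ∀ c, ∃ n, c < g n) {γ : ℝ} (hγ : 0 < γ) :
    Room g γ 0 := by
  classical
  intro D m n
  obtain ⟨n₁, hn₁⟩ := hu (m + 2)
  obtain ⟨n₂, hn₂⟩ := eventually_atTop.1 (poly_le D 288)
  set ℓ := max n₁ (max n₂ (n + 1)) with hℓ
  refine ⟨ℓ, by omega, Unit, inferInstance, inferInstance, fun _ => List.replicate ℓ false,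
    fun _ _ _ => rfl, fun _ => List.length_replicate, ?_, ?_⟩
  · rw [Fintype.card_unit]
    have := hg (show n₁ ≤ ℓ by omega)
    omega
  · have h1 := hn₂ ℓ (by omega)
    have h2 : 2 ^ (2 * (0 : Polynomial ℕ).eval ℓ) = 1 := by simp
    rw [h2]
    refine hardP_one (side_Om ℓ) (by rw [card_Om]; positivity) ?_ hγ
    rw [card_Om]
    have h3 : (288 : ℝ) * ((D.eval ℓ : ℕ) : ℝ) ≤ 2 ^ ℓ := by exact_mod_cast h1
    have h4 : (0 : ℝ) < 2 ^ ℓ := by positivity
    push_cast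
    linarith

/-- many plants are enough against circuits with advice -/
theorem room_many {g : ℕ → ℕ} (hg : Monotone g) (hu : ∀ p : Polynomial ℕ, ∃ n, p.eval n < g n)
    {γ : ℝ} (hγ0 : 1 / 2 < γ) (hγ1 : γ ≤ 1) (pa : Polynomial ℕ) : Room g γ pa := by
  classical
  intro D m n
  set η : ℝ := (γ - 1 / 2) / 4 with hη
  have hη0 : 0 < η := by rw [hη]; linarith
  have hη1 : η ≤ 1 / 8 := by rw [hη]; linarith
  obtain ⟨D₀, hD₀⟩ := exists_nat_ge (144 / η)
  obtain ⟨D₁, hD₁⟩ := exists_nat_ge (4 / η ^ 2)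
  have hD1 : 144 ≤ η * D₀ := by
    rw [div_le_iff₀ hη0] at hD₀
    linarith
  have hD2 : 4 ≤ η ^ 2 * D₁ := by
    rw [div_le_iff₀ (by positivity)] at hD₁
    linarith
  set Lp : Polynomial ℕ := Polynomial.C D₀ * D + 1 with hLp
  set sp : Polynomial ℕ := Polynomial.C D₁ * (2 * pa + 1) with hsp
  have hLe : ∀ n, Lp.eval n = D₀ * D.eval n + 1 := fun n => by rw [hLp]; simp
  have hse : ∀ n, sp.eval n = D₁ * (2 * pa.eval n + 1) := fun n => by rw [hsp]; simp
  obtain ⟨n₁, hn₁⟩ := eventually_atTop.1 (poly_le (sp * Lp) 1)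
  obtain ⟨n₂, hn₂⟩ := eventually_atTop.1 (poly_le D D₀)
  set n₃ := max n₁ (max n₂ (n + 1)) with hn₃
  obtain ⟨ℓ, hℓ⟩ := hu (Polynomial.C (m + g n₃) + 2 * (sp * Lp))
  have hℓ' : m + g n₃ + 2 * (sp.eval ℓ * Lp.eval ℓ) < g ℓ := by
    simpa using hℓ
  have hℓn : n₃ < ℓ := by
    by_contra h
    have := hg (not_lt.1 h)
    omega
  set L := Lp.eval ℓ with hL
  set s := sp.eval ℓ with hs
  have hsL : s * L ≤ 2 ^ ℓ := by
    have := hn₁ ℓ (by omega)
    rw [one_mul, Polynomial.eval_mul] at this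
    exact this
  refine ⟨ℓ, by omega, Fin s × Fin L, inferInstance, inferInstance, inpQ ℓ s L, inpQ_inj hsL,
    length_inpQ ℓ s L, ?_, ?_⟩
  · rw [Fintype.card_prod, Fintype.card_fin, Fintype.card_fin]
    omega
  · have hΩ : 0 < Fintype.card (Bool × Fin (2 ^ ℓ)) := by rw [card_Om]; positivity
    have hL1 := hLe ℓ
    have hs1 := hse ℓ
    rw [← hL] at hL1
    rw [← hs] at hs1
    refine hardP_dp (side_Om ℓ) hΩ (u := 1 / 2 + η) (β := η) (d := η) ?_ (by positivity)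
      (by linarith) (by omega) ?_ hη0.le (by linarith) (by rw [hη]; linarith) ?_
    · rw [card_Om]
      have h1 := hn₂ ℓ (by omega)
      have h2 : (D₀ : ℝ) * ((D.eval ℓ : ℕ) : ℝ) ≤ 2 ^ ℓ := by exact_mod_cast h1
      have h3 : (0 : ℝ) < 2 ^ ℓ := by positivity
      have h4 : 144 * ((D.eval ℓ : ℕ) : ℝ) / ((2 * 2 ^ ℓ : ℕ) : ℝ) ≤ η := by
        push_cast
        rw [div_le_iff₀ (by positivity)]
        have h5 : (0 : ℝ) ≤ ((D.eval ℓ : ℕ) : ℝ) := Nat.cast_nonneg _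
        nlinarith [mul_le_mul_of_nonneg_right hD1 h5, mul_le_mul_of_nonneg_left h2 hη0.le]
      linarith
    · rw [hL1]
      push_cast
      have h5 : (0 : ℝ) ≤ ((D.eval ℓ : ℕ) : ℝ) := Nat.cast_nonneg _
      nlinarith [mul_le_mul_of_nonneg_right hD1 h5]
    · have h1 : (s : ℝ) = D₁ * (2 * ((pa.eval ℓ : ℕ) : ℝ) + 1) := by
        rw [hs1]
        push_cast
        ring
      have h2 : ((2 ^ (2 * pa.eval ℓ) : ℕ) : ℝ) ≤ Real.exp (2 * ((pa.eval ℓ : ℕ) : ℝ)) := by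
        push_cast
        have h3 : (2 : ℝ) ≤ Real.exp 1 := by
          have := Real.add_one_le_exp (1 : ℝ)
          linarith
        calc (2 : ℝ) ^ (2 * pa.eval ℓ) ≤ Real.exp 1 ^ (2 * pa.eval ℓ) :=
              pow_le_pow_left₀ (by norm_num) h3 _
          _ = Real.exp (2 * ((pa.eval ℓ : ℕ) : ℝ)) := by
              rw [← Real.exp_nat_mul]
              congr 1
              push_cast
              ring
      have h4 : η ^ 2 / 4 * s ≥ 2 * ((pa.eval ℓ : ℕ) : ℝ) + 1 := by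
        rw [h1]
        have h5 : (0 : ℝ) ≤ 2 * ((pa.eval ℓ : ℕ) : ℝ) + 1 := by positivity
        nlinarith [mul_le_mul_of_nonneg_right hD2 h5]
      calc ((2 ^ (2 * pa.eval ℓ) : ℕ) : ℝ) * Real.exp (-(η ^ 2 / 4 * s)) ≤
            Real.exp (2 * ((pa.eval ℓ : ℕ) : ℝ)) * Real.exp (-(η ^ 2 / 4 * s)) :=
            mul_le_mul_of_nonneg_right h2 (Real.exp_nonneg _)
        _ = Real.exp (2 * ((pa.eval ℓ : ℕ) : ℝ) + -(η ^ 2 / 4 * s)) := (Real.exp_add _ _).symm
        _ < 1 := by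
            rw [Real.exp_lt_one_iff]
            linarith

end Pool.Agent.Helper11x.SP
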