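import Pool.Agent.Helper11x.SP.Wld
import Pool.Agent.Helper11x.SP.Defs
import Pool.Agent.H620R2.Gauge.Event

/-!
# One stage of the construction
-/

set_option autoImplicit false

namespace Pool.Agent.Helper11x.SP

open Finset Pool.Agent.NPC Pool.Agent.H620R2.Gauge Pool.Agent.TH678.GC Pool.Agent.HM13.PC
  Pool.Agent.Helper11x.QG
open Pool.Agent.H9x.Q (QFamily Gate Short prob prob_congr)

/-- a string with a number in unary in front of it -/
def tag (s : ℕ) (k : List Bool) : List Bool := List.replicate s true ++ false :: k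

theorem tag_inj : ∀ {s s' : ℕ} {k k' : List Bool}, tag s k = tag s' k' → s = s' ∧ k = k'
  | 0, 0, k, k', h => by simpa [tag] using h
  | 0, s + 1, k, k', h => by simp [tag, List.replicate_succ] at h
  | s + 1, 0, k, k', h => by simp [tag, List.replicate_succ] at h
  | s + 1, s' + 1, k, k', h => by
    have h1 : tag s k = tag s' k' := by
      simpa [tag, List.replicate_succ] using h
    obtain ⟨h2, h3⟩ := tag_inj h1
    exact ⟨by rw [h2], h3⟩

theorem length_tag (s : ℕ) (k : List Bool) : (tag s k).length = s + 1 + k.length := by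
  simp [tag]
  ring

/-- the place of the plant `w` for the input `x`, with the side `c`, for the pair number `e` -/
def cell (e : ℕ) (c : Bool) (x w : List Bool) : List Bool := tag x.length (tag e (c :: (x ++ w)))

theorem length_cell (e : ℕ) (c : Bool) (x w : List Bool) :
    (cell e c x w).length = 2 * x.length + e + w.length + 3 := by
  unfold cell
  rw [length_tag, length_tag, List.length_cons, List.length_append]
  ring

theorem cell_inj {e e' : ℕ} {c c' : Bool} {x x' w w' : List Bool}
    (h : cell e c x w = cell e' c' x' w') : e = e' ∧ c = c' ∧ x = x' ∧ w = w' := by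
  unfold cell at h
  obtain ⟨h1, h2⟩ := tag_inj h
  obtain ⟨h3, h4⟩ := tag_inj h2
  obtain ⟨h5, h6⟩ := List.cons.inj h4
  obtain ⟨h7, h8⟩ := List.append_inj h6 h1
  exact ⟨h3, h5, h7, h8⟩

/-- the inputs which have a plant with the side `c` -/
def Sd (e : ℕ) (c : Bool) (S : Oracle) : Set (List Bool) := {x | ∃ w, S (cell e c x w) = true}

/-- the oracle `S` agrees with the finite set `S₀` on the strings of length at most `N` -/
def Agr (S : Oracle) (S₀ : Finset (List Bool)) (N : ℕ) : Prop :=
  ∀ s : List Bool, s.length ≤ N → (S s = true ↔ s ∈ S₀)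

/-- the advice strings -/
def advs (n : ℕ) : Finset (List Bool) := (range (n + 1)).biUnion strsOf

theorem mem_advs {n : ℕ} {h : List Bool} (hh : h.length ≤ n) : h ∈ advs n := by
  unfold advs
  rw [mem_biUnion]
  exact ⟨h.length, mem_range.2 (by omega), mem_strsOf h⟩

theorem advs_le {n : ℕ} {h : List Bool} (hh : h ∈ advs n) : h.length ≤ n := by
  unfold advs at hh
  rw [mem_biUnion] at hh
  obtain ⟨c, hc, hh⟩ := hh
  unfold strsOf at hh
  rw [mem_image] at hh
  obtain ⟨j, _, rfl⟩ := hh
  rw [length_bitsOf]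
  have := mem_range.1 hc
  omega

theorem card_advs (n : ℕ) : (advs n).card ≤ 2 ^ (2 * n) := by
  unfold advs
  refine card_biUnion_le.trans ?_
  have h1 : ∀ c ∈ range (n + 1), (strsOf c).card ≤ 2 ^ n := fun c hc =>
    (card_strsOf c).trans (Nat.pow_le_pow_right (by norm_num) (by
      have := mem_range.1 hc
      omega))
  refine (sum_le_sum h1).trans ?_
  rw [sum_const, card_range, smul_eq_mul]
  have h2 : n + 1 ≤ 2 ^ n := Nat.lt_two_pow_self
  calc (n + 1) * 2 ^ n ≤ 2 ^ n * 2 ^ n := Nat.mul_le_mul_right _ h2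
    _ = 2 ^ (2 * n) := by rw [← pow_add]; congr 1; ring

/-- `x` is in `U` or `V`, and the value `v` tells in which one -/
def Rgt (U V : Set (List Bool)) (x : List Bool) (v : ℝ) : Prop :=
  (x ∈ U ∧ 2 / 3 ≤ v) ∨ (x ∈ V ∧ v ≤ 1 / 3)

/-- the plants -/
def plt (e : ℕ) {κ : Type} (ℓ : ℕ) (inp : κ → List Bool) (i : κ × (Bool × Fin (2 ^ ℓ))) :
    List Bool := cell e i.2.1 (inp i.1) (bitsOf ℓ i.2.2)

theorem plt_inj (e : ℕ) {κ : Type} (ℓ : ℕ) {inp : κ → List Bool} (hinp : Function.Injective inp) :
    Function.Injective (plt e ℓ inp) := by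
  rintro ⟨k, c, j⟩ ⟨k', c', j'⟩ h
  obtain ⟨_, h1, h2, h3⟩ := cell_inj h
  simp only at h1 h2 h3
  rw [h1, hinp h2, Fin.ext (bitsOf_inj j.2 j'.2 h3)]

open Classical in
/-- **One stage of the construction.** -/
theorem stage (B : Oracle) (e : ℕ) {M₁ M₂ : Alg} {p₁ p₂ r : Polynomial ℕ}
    (hr : (Cls.np M₁ M₂ p₁ p₂).Bd r) (F : Slv) {M n' : ℕ}
    (S₀ : Finset (List Bool)) (N : ℕ) (σ : List Bool → Option Bool)
    (hS₀ : ∀ s ∈ S₀, s.length ≤ N)
    (hσ : ∀ y b, σ y = some b → ∀ S : Oracle, Agr S S₀ N →
      (Cls.np M₁ M₂ p₁ p₂).Sep (join B S) y b)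
    {κ : Type} [Fintype κ] [DecidableEq κ] {ℓ : ℕ} (hℓ : N < ℓ) (inp : κ → List Bool)
    (hinp : Function.Injective inp) (hlen : ∀ k, (inp k).length = ℓ) {γ : ℝ}
    (hyb : ∀ x h : List Bool, x.length = ℓ → h.length ≤ n' → Hyb M (fun A => F.val A x h))
    (hard : HardP κ (Bool × Fin (2 ^ ℓ)) Prod.fst (16 * ((M : ℕ) : ℝ) ^ 2 *
      ((r.eval M * r.eval M + 1 : ℕ) : ℝ)) (2 ^ (2 * n')) γ)
    (n₁ : ℕ) :
    ∃ (S₁ : Finset (List Bool)) (N₁ : ℕ) (σ₁ : List Bool → Option Bool), n₁ ≤ N₁ ∧ N < N₁ ∧
      S₀ ⊆ S₁ ∧ (∀ s ∈ S₁, s ∈ S₀ ∨ ∃ c x w, s = cell e c x w ∧ x.length = ℓ ∧ w.length = ℓ) ∧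
      (∀ s ∈ S₁, s.length ≤ N₁) ∧ S₁.card ≤ S₀.card + 2 * Fintype.card κ ∧
      (∀ y b, σ y = some b → σ₁ y = some b) ∧
      ((∀ S : Oracle, Agr S S₁ N₁ → ¬ (Cls.np M₁ M₂ p₁ p₂).Hold (join B S)) ∨
       ((∀ c x w c' w', cell e c x w ∈ S₁ → cell e c' x w' ∈ S₁ → x.length = ℓ →
          c = c' ∧ w = w') ∧
        (∀ y b, σ₁ y = some b → ∀ S : Oracle, Agr S S₁ N₁ →
          (Cls.np M₁ M₂ p₁ p₂).Sep (join B S) y b) ∧
        ∀ S T : Oracle, Agr S S₁ N₁ → (∀ c x w, S (cell e c x w) = true → w.length = x.length) →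
          (∀ y b, σ₁ y = some b → T y = b) → ∀ h : List Bool, h.length ≤ n' →
          ({x : List Bool | x.length = ℓ ∧
            Rgt (Sd e true S) (Sd e false S) x (F.val (join (join B S) T) x h)}.ncard : ℝ) <
          γ * ({x : List Bool | x.length = ℓ ∧ (x ∈ Sd e true S ∨ x ∈ Sd e false S)}.ncard : ℝ))) := by
  set pl := plt e ℓ inp with hpl0
  have hpl : Function.Injective pl := plt_inj e ℓ hinp
  have hpll : ∀ i, (pl i).length = 3 * ℓ + e + 3 := by
    intro i
    rw [hpl0]
    unfold plt
    rw [length_cell, hlen, length_bitsOf]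
    ring
  have hnew : ∀ i, ∃ c x w, pl i = cell e c x w ∧ x.length = ℓ ∧ w.length = ℓ := fun i =>
    ⟨i.2.1, inp i.1, bitsOf ℓ i.2.2, rfl, hlen _, length_bitsOf _ _⟩
  by_cases hkill : ∃ Z : κ × (Bool × Fin (2 ^ ℓ)) → Bool, cnt Z ≤ 2 * Fintype.card κ ∧
      ¬ (Cls.np M₁ M₂ p₁ p₂).Hold (join B (wor S₀ pl Z))
  · -- the promise can be broken
    obtain ⟨Z, hZ, hnot⟩ := hkill
    obtain ⟨N', hN'⟩ := Cls.not_hold hnot
    set S₁ : Finset (List Bool) := S₀ ∪ (univ.filter (fun i => Z i = true)).image pl with hS₁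
    have hmem : ∀ y, wor S₀ pl Z y = true ↔ y ∈ S₁ := by
      intro y
      rw [wor_iff, hS₁, mem_union, mem_image]
      simp
    refine ⟨S₁, max n₁ (N + 1) + N' + (3 * ℓ + e + 3), σ, by omega, by omega,
      subset_union_left, ?_, ?_, ?_, fun y b h => h, Or.inl fun S hS => hN' _ fun q hq => ?_⟩
    · intro s hs
      rcases mem_union.1 hs with h | h
      · exact Or.inl h
      · obtain ⟨i, _, rfl⟩ := mem_image.1 h
        exact Or.inr (hnew i)
    · intro s hs
      rcases mem_union.1 hs with h | h
      · have := hS₀ s h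
        omega
      · obtain ⟨i, _, rfl⟩ := mem_image.1 h
        rw [hpll]
        omega
    · refine (card_union_le _ _).trans ?_
      have h1 : ((univ.filter (fun i => Z i = true)).image pl).card ≤ cnt Z := by
        unfold cnt
        exact card_image_le
      omega
    · rcases q with _ | ⟨_ | _, q⟩
      · rfl
      · rfl
      · show S q = wor S₀ pl Z q
        rw [Bool.eq_iff_iff, hmem]
        rw [List.length_cons] at hq
        exact hS q (by omega)
  · push Not at hkill
    choose Tq hTq1 hTq2 using fun y => sep_q B S₀ hpl hr (R := Fintype.card κ) hkill y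
    set T' : List Bool → (κ × (Bool × Fin (2 ^ ℓ)) → Bool) → Bool := fun q Z =>
      match σ q with
      | some b => b
      | none => Tq q Z with hT'
    have hD : ∀ q : List Bool, q.length ≤ M → ∀ Z, ∃ C : Finset (κ × (Bool × Fin (2 ^ ℓ))),
        C.card ≤ r.eval M * r.eval M + 1 ∧ ∀ Z', (∀ i ∈ C, Z' i = Z i) → T' q Z' = T' q Z := by
      intro q hq Z
      cases hsq : σ q with
      | some b => exact ⟨∅, by simp, fun Z' _ => by simp only [hT', hsq]⟩
      | none =>
        obtain ⟨C, h1, h2⟩ := hTq2 q Z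
        refine ⟨C, ?_, fun Z' hZ' => ?_⟩
        · have h3 := eval_mono r hq
          have h4 := Nat.mul_le_mul h3 h3
          omega
        · simp only [hT', hsq]
          exact h2 Z' hZ'
    obtain ⟨a, ha⟩ := hard (advs n') (fun h k a =>
      F.val (join (join B (wor S₀ pl (cv a))) (fun q => T' q (cv a))) (inp k) h.1)
      (by rw [Fintype.card_coe]; exact card_advs _)
      (fun h k => smO_hyb B S₀ hpl T' (by omega) hD (hyb (inp k) h.1 (hlen k) (advs_le h.2)))
    set Z₁ : κ × (Bool × Fin (2 ^ ℓ)) → Bool := cv (fun k => some (a k)) with hZ₁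
    have hZ1 : ∀ i, Z₁ i = true ↔ a i.1 = i.2 := by
      intro i
      rw [hZ₁]
      unfold cv
      rw [decide_eq_true_eq, Option.some.injEq]
    set S₁ : Finset (List Bool) := S₀ ∪ univ.image (fun k => pl (k, a k)) with hS₁
    have hmem : ∀ y, wor S₀ pl Z₁ y = true ↔ y ∈ S₁ := by
      intro y
      rw [wor_iff, hS₁, mem_union, mem_image]
      refine or_congr_right ⟨?_, ?_⟩
      · rintro ⟨i, h1, h2⟩
        rw [hZ1] at h1
        exact ⟨i.1, mem_univ _, by rw [h1]; exact h2⟩
      · rintro ⟨k, _, h⟩
        exact ⟨(k, a k), (hZ1 _).2 rfl, h⟩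
    have hcnt : cnt Z₁ ≤ Fintype.card κ := by
      unfold cnt
      have h1 : univ.filter (fun i => Z₁ i = true) ⊆ univ.image (fun k : κ => (k, a k)) := by
        intro i hi
        have h2 := (hZ1 i).1 (mem_filter.1 hi).2
        rw [mem_image]
        exact ⟨i.1, mem_univ _, by rw [h2]⟩
      exact (card_le_card h1).trans (card_image_le.trans (by rw [card_univ]))
    have hS1n : ∀ s ∈ S₁, s ∈ S₀ ∨ ∃ k, s = pl (k, a k) := by
      intro s hs
      rcases mem_union.1 hs with h | h
      · exact Or.inl h
      · obtain ⟨k, _, rfl⟩ := mem_image.1 h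
        exact Or.inr ⟨k, rfl⟩
    have hcell : ∀ c x w, x.length = ℓ → cell e c x w ∈ S₁ →
        ∃ k, x = inp k ∧ (a k).1 = c ∧ w = bitsOf ℓ (a k).2 := by
      intro c x w hx h
      rcases hS1n _ h with h | ⟨k, h⟩
      · exfalso
        have := hS₀ _ h
        rw [length_cell] at this
        omega
      · obtain ⟨_, h1, h2, h3⟩ := cell_inj h
        exact ⟨k, h2, h1.symm, h3⟩
    set σ₁ : List Bool → Option Bool := fun q =>
      match σ q with
      | some b => some b
      | none => if q.length ≤ M then some (Tq q Z₁) else none with hσ₁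
    have hσσ : ∀ y b, σ y = some b → σ₁ y = some b := by
      intro y b h
      simp only [hσ₁, h]
    have hσT : ∀ q : List Bool, q.length ≤ M → σ₁ q = some (T' q Z₁) := by
      intro q hq
      simp only [hσ₁, hT']
      cases hsq : σ q with
      | some b => rfl
      | none =>
        simp only
        rw [if_pos hq]
    set N₁ := max n₁ (N + 1) + r.eval M + M + (3 * ℓ + e + 3) with hN₁
    refine ⟨S₁, N₁, σ₁, by omega, by omega, subset_union_left, ?_, ?_, ?_, hσσ,
      Or.inr ⟨?_, ?_, ?_⟩⟩
    · intro s hs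
      rcases hS1n s hs with h | ⟨k, rfl⟩
      · exact Or.inl h
      · exact Or.inr (hnew _)
    · intro s hs
      rcases hS1n s hs with h | ⟨k, rfl⟩
      · have := hS₀ s h
        omega
      · rw [hpll]
        omega
    · refine (card_union_le _ _).trans ?_
      have h1 : (univ.image (fun k => pl (k, a k))).card ≤ Fintype.card κ :=
        card_image_le.trans (by rw [card_univ])
      omega
    · intro c x w c' w' h1 h2 hx
      obtain ⟨k, h3, h4, h5⟩ := hcell c x w hx h1
      obtain ⟨k', h3', h4', h5'⟩ := hcell c' x w' hx h2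
      have hk : k = k' := hinp (h3.symm.trans h3')
      subst hk
      exact ⟨h4.symm.trans h4', h5.trans h5'.symm⟩
    · intro y b hy S hS
      cases hsy : σ y with
      | some b' =>
        have h1 := hσσ y b' hsy
        rw [hy, Option.some.injEq] at h1
        subst h1
        refine hσ y b hsy S fun s hs => ?_
        rw [hS s (by omega)]
        constructor
        · intro h
          rcases hS1n s h with h | ⟨k, rfl⟩
          · exact h
          · rw [hpll] at hs
            omega
        · exact fun h => mem_union_left _ h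
      | none =>
        simp only [hσ₁, hsy] at hy
        by_cases hyM : y.length ≤ M
        · rw [if_pos hyM, Option.some.injEq] at hy
          subst hy
          have h1 := hTq1 y Z₁ hcnt
          rw [← hr.sep (n := M) (A := join B (wor S₀ pl Z₁)) (A' := join B S) ?_ hyM] at h1
          · exact h1
          · intro q hq
            rcases q with _ | ⟨_ | _, q⟩
            · rfl
            · rfl
            · show S q = wor S₀ pl Z₁ q
              rw [Bool.eq_iff_iff, hmem]
              rw [List.length_cons] at hq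
              exact hS q (by omega)
        · rw [if_neg hyM] at hy
          exact absurd hy (by simp)
    · intro S T hS hlw hT h hh
      have hacc : ∀ k, F.val (join (join B S) T) (inp k) h =
          F.val (join (join B (wor S₀ pl Z₁)) (fun q => T' q Z₁)) (inp k) h := by
        intro k
        refine (hyb (inp k) h (hlen k) hh).1 _ _ ?_
        intro q hq
        rcases q with _ | ⟨_ | _, q⟩
        · rfl
        · show join B S q = join B (wor S₀ pl Z₁) q
          rcases q with _ | ⟨_ | _, q⟩
          · rfl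
          · rfl
          · show S q = wor S₀ pl Z₁ q
            rw [Bool.eq_iff_iff, hmem]
            rw [List.length_cons, List.length_cons] at hq
            exact hS q (by omega)
        · show T q = T' q Z₁
          rw [List.length_cons] at hq
          exact hT q _ (hσT q (by omega))
      have hSd : ∀ (c : Bool) (x : List Bool), x.length = ℓ →
          (x ∈ Sd e c S ↔ ∃ k, x = inp k ∧ (a k).1 = c) := by
        intro c x hx
        constructor
        · rintro ⟨w, hw⟩
          have h1 := hlw c x w hw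
          rw [hS _ (by rw [length_cell]; omega)] at hw
          obtain ⟨k, h2, h3, _⟩ := hcell c x w hx hw
          exact ⟨k, h2, h3⟩
        · rintro ⟨k, rfl, rfl⟩
          refine ⟨bitsOf ℓ (a k).2, ?_⟩
          rw [hS _ (by rw [length_cell, length_bitsOf]; omega)]
          exact mem_union_right _ (mem_image_of_mem (fun k => pl (k, a k)) (mem_univ k))
      have hall : {x : List Bool | x.length = ℓ ∧ (x ∈ Sd e true S ∨ x ∈ Sd e false S)}.ncard =
          Fintype.card κ := by
        have e1 : {x : List Bool | x.length = ℓ ∧ (x ∈ Sd e true S ∨ x ∈ Sd e false S)} =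
            ((univ.image inp : Finset (List Bool)) : Set (List Bool)) := by
          ext x
          rw [Set.mem_ofPred_eq, mem_coe, mem_image]
          constructor
          · rintro ⟨hx, h1⟩
            rw [hSd true x hx, hSd false x hx] at h1
            rcases h1 with ⟨k, h2, _⟩ | ⟨k, h2, _⟩
            · exact ⟨k, mem_univ _, h2.symm⟩
            · exact ⟨k, mem_univ _, h2.symm⟩
          · rintro ⟨k, _, rfl⟩
            refine ⟨hlen k, ?_⟩
            rw [hSd true _ (hlen k), hSd false _ (hlen k)]
            cases hc : (a k).1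
            · exact Or.inr ⟨k, rfl, hc⟩
            · exact Or.inl ⟨k, rfl, hc⟩
        rw [e1, Set.ncard_coe_finset, card_image_of_injective _ hinp, card_univ]
      rw [hall]
      refine lt_of_le_of_lt ?_ (ha ⟨h, mem_advs hh⟩)
      have e2 : {x : List Bool | x.length = ℓ ∧
            Rgt (Sd e true S) (Sd e false S) x (F.val (join (join B S) T) x h)} ⊆
          inp '' {k | Rt (1 / 6) (a k).1 (F.val (join (join B (wor S₀ pl Z₁))
            (fun q => T' q Z₁)) (inp k) h)} := by
        rintro x ⟨hx, h1⟩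
        rcases h1 with ⟨h1, h2⟩ | ⟨h1, h2⟩
        · rw [hSd _ x hx] at h1
          obtain ⟨k, rfl, hk⟩ := h1
          rw [hacc] at h2
          refine ⟨k, ⟨fun _ => ?_, fun hc => ?_⟩, rfl⟩
          · norm_num
            linarith
          · rw [hk] at hc
            exact absurd hc (by simp)
        · rw [hSd _ x hx] at h1
          obtain ⟨k, rfl, hk⟩ := h1
          rw [hacc] at h2
          refine ⟨k, ⟨fun hc => ?_, fun _ => ?_⟩, rfl⟩
          · rw [hk] at hc
            exact absurd hc (by simp)
          · norm_num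
            linarith
      have h3 := (Set.ncard_le_ncard e2 (Set.toFinite _)).trans (Set.ncard_image_le (Set.toFinite _))
      exact_mod_cast h3

end Pool.Agent.Helper11x.SP
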