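import Mathlib

/-!
# Disjoint disjunctions of short terms have separators which are decided by few bits
-/

set_option autoImplicit false

namespace Pool.Agent.Helper11x.SP

open Finset

/-- the term `f` is satisfied by `Z` -/
def Sat {I : Type} (f : Finset I × (I → Bool)) (Z : I → Bool) : Prop := ∀ i ∈ f.1, Z i = f.2 i

theorem tree {I : Type} [DecidableEq I] (w : ℕ) : ∀ (n : ℕ) (F G : Set (Finset I × (I → Bool))),
    (∀ f ∈ F, f.1.card ≤ w) → (∀ g ∈ G, g.1.card ≤ n) →
    (∀ f ∈ F, ∀ g ∈ G, ∃ i ∈ f.1, i ∈ g.1 ∧ f.2 i ≠ g.2 i) →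
    ∃ T : (I → Bool) → Bool, (∀ Z, (∃ f ∈ F, Sat f Z) → T Z = true) ∧
      (∀ Z, (∃ g ∈ G, Sat g Z) → T Z = false) ∧
      ∀ Z, ∃ R : Finset I, R.card ≤ n * w ∧ ∀ Z', (∀ i ∈ R, Z' i = Z i) → T Z' = T Z := by
  intro n
  induction n with
  | zero =>
    intro F G hF hG hc
    rcases F.eq_empty_or_nonempty with h | ⟨f₀, h₀⟩
    · refine ⟨fun _ => false, ?_, fun _ _ => rfl, fun _ => ⟨∅, by simp, fun _ _ => rfl⟩⟩
      rintro Z ⟨f, hf, _⟩
      rw [h] at hf
      exact absurd hf (by simp)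
    · refine ⟨fun _ => true, fun _ _ => rfl, ?_, fun _ => ⟨∅, by simp, fun _ _ => rfl⟩⟩
      rintro Z ⟨g, hg, _⟩
      exfalso
      obtain ⟨i, _, hi, _⟩ := hc f₀ h₀ g hg
      have h1 := hG g hg
      rw [Nat.le_zero, card_eq_zero] at h1
      rw [h1] at hi
      exact absurd hi (by simp)
  | succ n ih =>
    intro F G hF hG hc
    rcases F.eq_empty_or_nonempty with h | ⟨f₀, h₀⟩
    · refine ⟨fun _ => false, ?_, fun _ _ => rfl, fun _ => ⟨∅, by simp, fun _ _ => rfl⟩⟩
      rintro Z ⟨f, hf, _⟩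
      rw [h] at hf
      exact absurd hf (by simp)
    · let sub : Set (Finset I × (I → Bool)) → (I → Bool) → Set (Finset I × (I → Bool)) :=
        fun F v => {t | ∃ f ∈ F, (∀ i ∈ f.1, i ∈ f₀.1 → f.2 i = v i) ∧ t = (f.1 \ f₀.1, f.2)}
      have key : ∀ v : I → Bool, ∃ T : (I → Bool) → Bool,
          (∀ Z, (∃ f ∈ sub F v, Sat f Z) → T Z = true) ∧
          (∀ Z, (∃ g ∈ sub G v, Sat g Z) → T Z = false) ∧
          ∀ Z, ∃ R : Finset I, R.card ≤ n * w ∧ ∀ Z', (∀ i ∈ R, Z' i = Z i) → T Z' = T Z := by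
        intro v
        refine ih (sub F v) (sub G v) ?_ ?_ ?_
        · rintro _ ⟨f, hf, _, rfl⟩
          exact (card_le_card sdiff_subset).trans (hF f hf)
        · rintro _ ⟨g, hg, _, rfl⟩
          obtain ⟨i, hi, hi', _⟩ := hc f₀ h₀ g hg
          have h1 : g.1 \ f₀.1 ⊆ g.1.erase i := by
            intro j hj
            rw [mem_sdiff] at hj
            rw [mem_erase]
            refine ⟨?_, hj.1⟩
            rintro rfl
            exact hj.2 hi
          have h2 := card_le_card h1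
          rw [card_erase_of_mem hi'] at h2
          have h3 := hG g hg
          show (g.1 \ f₀.1).card ≤ n
          omega
        · rintro _ ⟨f, hf, hfv, rfl⟩ _ ⟨g, hg, hgv, rfl⟩
          obtain ⟨i, hi, hi', hne⟩ := hc f hf g hg
          have h1 : i ∉ f₀.1 := by
            intro h
            rw [hfv i hi h, hgv i hi' h] at hne
            exact hne rfl
          exact ⟨i, mem_sdiff.2 ⟨hi, h1⟩, mem_sdiff.2 ⟨hi', h1⟩, hne⟩
      choose Tv h1 h2 h3 using key
      let res : (I → Bool) → I → Bool := fun Z i => if i ∈ f₀.1 then Z i else false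
      have hres : ∀ Z, ∀ i ∈ f₀.1, res Z i = Z i := fun Z i hi => by simp only [res]; rw [if_pos hi]
      refine ⟨fun Z => Tv (res Z) Z, ?_, ?_, ?_⟩
      · rintro Z ⟨f, hf, hs⟩
        exact h1 _ _ ⟨(f.1 \ f₀.1, f.2), ⟨f, hf, fun i hi hi' => by
          rw [hres Z i hi']; exact (hs i hi).symm, rfl⟩, fun i hi => hs i (mem_sdiff.1 hi).1⟩
      · rintro Z ⟨f, hf, hs⟩
        exact h2 _ _ ⟨(f.1 \ f₀.1, f.2), ⟨f, hf, fun i hi hi' => by
          rw [hres Z i hi']; exact (hs i hi).symm, rfl⟩, fun i hi => hs i (mem_sdiff.1 hi).1⟩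
      · intro Z
        obtain ⟨R, hR, hR'⟩ := h3 (res Z) Z
        refine ⟨f₀.1 ∪ R, ?_, fun Z' hZ' => ?_⟩
        · refine (card_union_le _ _).trans ?_
          have := hF f₀ h₀
          rw [Nat.add_mul]
          omega
        · have h4 : res Z' = res Z := by
            funext i
            simp only [res]
            by_cases hi : i ∈ f₀.1
            · rw [if_pos hi, if_pos hi, hZ' i (mem_union_left _ hi)]
            · rw [if_neg hi, if_neg hi]
          show Tv (res Z') Z' = Tv (res Z) Z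
          rw [h4]
          exact hR' Z' fun i hi => hZ' i (mem_union_right _ hi)

end Pool.Agent.Helper11x.SP
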