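import Pool.Agent.HM13.PC.Cls
import Pool.Agent.Helper11x.SP.Tree
import Pool.Agent.Helper11x.SP.Dp
import Pool.Agent.Helper11x.QG.Defs

/-!
# Worlds with few plants
-/

set_option autoImplicit false

namespace Pool.Agent.Helper11x.SP

open Finset Pool.Agent.NPC Pool.Agent.H620R2.Gauge Pool.Agent.TH678.GC Pool.Agent.HM13.PC
  Pool.Agent.Helper11x.QG
open Pool.Agent.H9x.Q (QFamily Gate Short prob prob_congr)

variable {I : Type}

open Classical in
/-- the world `Z`: the finite set `S₀` and the plants which are chosen by `Z` -/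
noncomputable def wor (S₀ : Finset (List Bool)) (pl : I → List Bool) (Z : I → Bool) : Oracle :=
  fun y => decide (y ∈ S₀ ∨ ∃ i, Z i = true ∧ pl i = y)

theorem wor_iff (S₀ : Finset (List Bool)) (pl : I → List Bool) (Z : I → Bool) (y : List Bool) :
    wor S₀ pl Z y = true ↔ y ∈ S₀ ∨ ∃ i, Z i = true ∧ pl i = y := by
  unfold wor
  simp only [decide_eq_true_eq]

theorem sum_bU {ι α : Type} [DecidableEq α] (R : Finset ι) (t : ι → Finset α) (w : α → ℝ)
    (hw : ∀ a, 0 ≤ w a) : ∑ a ∈ R.biUnion t, w a ≤ ∑ c ∈ R, ∑ a ∈ t c, w a := by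
  classical
  induction R using Finset.induction_on with
  | empty => simp
  | insert c R hc ih =>
    rw [biUnion_insert, sum_insert hc]
    have h1 := sum_union_inter (s₁ := t c) (s₂ := R.biUnion t) (f := w)
    have h2 : 0 ≤ ∑ a ∈ t c ∩ R.biUnion t, w a := sum_nonneg fun a _ => hw a
    linarith

theorem wor_congr (S₀ : Finset (List Bool)) (pl : I → List Bool) {Z Z' : I → Bool} {y : List Bool}
    (h : ∀ i, pl i = y → Z' i = Z i) : wor S₀ pl Z' y = wor S₀ pl Z y := by
  rw [Bool.eq_iff_iff, wor_iff, wor_iff]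
  refine or_congr_right (exists_congr fun i => ?_)
  constructor
  · rintro ⟨h1, h2⟩
    exact ⟨by rw [← h i h2]; exact h1, h2⟩
  · rintro ⟨h1, h2⟩
    exact ⟨by rw [h i h2]; exact h1, h2⟩

open Classical in
/-- the number of plants -/
noncomputable def cnt [Fintype I] (Z : I → Bool) : ℕ := (univ.filter (fun i => Z i = true)).card

open Classical in
/-- the plants which are questioned -/
noncomputable def seen [Fintype I] (pl : I → List Bool) (Q : Finset (List Bool)) : Finset I :=
  univ.filter (fun i => true :: pl i ∈ Q)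

theorem mem_seen [Fintype I] {pl : I → List Bool} {Q : Finset (List Bool)} {i : I} :
    i ∈ seen pl Q ↔ true :: pl i ∈ Q := by
  unfold seen
  rw [mem_filter]
  exact ⟨fun h => h.2, fun h => ⟨mem_univ _, h⟩⟩

theorem card_seen [Fintype I] {pl : I → List Bool} (hpl : Function.Injective pl)
    (Q : Finset (List Bool)) : (seen pl Q).card ≤ Q.card := by
  refine card_le_card_of_injOn (fun i => true :: pl i) (fun i hi => mem_seen.1 hi) ?_
  intro i _ j _ h
  exact hpl (List.cons.inj h).2

theorem join_seen [Fintype I] (B : Oracle) (S₀ : Finset (List Bool)) (pl : I → List Bool)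
    {Q : Finset (List Bool)} {Z Z' : I → Bool} (h : ∀ i ∈ seen pl Q, Z' i = Z i) :
    ∀ q ∈ Q, join B (wor S₀ pl Z') q = join B (wor S₀ pl Z) q := by
  intro q hq
  rcases q with _ | ⟨_ | _, q⟩
  · rfl
  · rfl
  · show wor S₀ pl Z' q = wor S₀ pl Z q
    refine wor_congr S₀ pl fun i hi => h i (mem_seen.2 ?_)
    rw [hi]
    exact hq

/-- **Separators which are decided by few plants.** -/
theorem sep_q [Fintype I] [DecidableEq I] (B : Oracle) (S₀ : Finset (List Bool))
    {pl : I → List Bool} (hpl : Function.Injective pl) {M₁ M₂ : Alg} {p₁ p₂ r : Polynomial ℕ}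
    (hr : (Cls.np M₁ M₂ p₁ p₂).Bd r) {R : ℕ} (hold : ∀ Z : I → Bool, cnt Z ≤ 2 * R →
      (Cls.np M₁ M₂ p₁ p₂).Hold (join B (wor S₀ pl Z))) (y : List Bool) :
    ∃ T : (I → Bool) → Bool, (∀ Z, cnt Z ≤ R →
      (Cls.np M₁ M₂ p₁ p₂).Sep (join B (wor S₀ pl Z)) y (T Z)) ∧
      ∀ Z, ∃ C : Finset I, C.card ≤ r.eval y.length * r.eval y.length ∧
        ∀ Z', (∀ i ∈ C, Z' i = Z i) → T Z' = T Z := by
  classical
  let tm : Alg → Polynomial ℕ → Set (Finset I × (I → Bool)) := fun M p =>
    {f | ∃ (Z : I → Bool) (w : List Bool) (Q : Finset (List Bool)), cnt Z ≤ R ∧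
      Ans (join B (wor S₀ pl Z)) M p y w ∧ Q.card ≤ r.eval y.length ∧
      (∀ A' : Oracle, (∀ q ∈ Q, A' q = join B (wor S₀ pl Z) q) →
        M.out A' (pairBits w y) = M.out (join B (wor S₀ pl Z)) (pairBits w y)) ∧
      f = (seen pl Q, Z)}
  have hcard : ∀ M p, ∀ f ∈ tm M p, f.1.card ≤ r.eval y.length := by
    rintro M p _ ⟨Z, w, Q, _, _, h, _, rfl⟩
    exact (card_seen hpl Q).trans h
  obtain ⟨T, hT1, hT2, hT3⟩ := tree (r.eval y.length) (r.eval y.length) (tm M₁ p₁) (tm M₂ p₂)
    (hcard M₁ p₁) (hcard M₂ p₂) (by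
      rintro _ ⟨Z₁, w₁, Q₁, a1, a2, a3, a4, rfl⟩ _ ⟨Z₂, w₂, Q₂, b1, b2, b3, b4, rfl⟩
      by_contra hcon'
      push Not at hcon'
      have hcon : ∀ i ∈ seen pl Q₁, i ∈ seen pl Q₂ → Z₁ i = Z₂ i := hcon'
      let Z : I → Bool := fun i => decide ((i ∈ seen pl Q₁ ∧ Z₁ i = true) ∨
        (i ∈ seen pl Q₂ ∧ Z₂ i = true))
      have e1 : ∀ i ∈ seen pl Q₁, Z i = Z₁ i := by
        intro i hi
        rw [Bool.eq_iff_iff]
        simp only [Z, decide_eq_true_eq]
        constructor
        · rintro (h | h)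
          · exact h.2
          · rw [hcon i hi h.1]
            exact h.2
        · exact fun h => Or.inl ⟨hi, h⟩
      have e2 : ∀ i ∈ seen pl Q₂, Z i = Z₂ i := by
        intro i hi
        rw [Bool.eq_iff_iff]
        simp only [Z, decide_eq_true_eq]
        constructor
        · rintro (h | h)
          · rw [← hcon i h.1 hi]
            exact h.2
          · exact h.2
        · exact fun h => Or.inr ⟨hi, h⟩
      have hZ : cnt Z ≤ 2 * R := by
        have h1 : univ.filter (fun i => Z i = true) ⊆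
            univ.filter (fun i => Z₁ i = true) ∪ univ.filter (fun i => Z₂ i = true) := by
          intro i hi
          have h2 := (mem_filter.1 hi).2
          simp only [Z, decide_eq_true_eq] at h2
          rw [mem_union, mem_filter, mem_filter]
          rcases h2 with h2 | h2
          · exact Or.inl ⟨mem_univ _, h2.2⟩
          · exact Or.inr ⟨mem_univ _, h2.2⟩
        have h2 := (card_le_card h1).trans (card_union_le _ _)
        unfold cnt at a1 b1 ⊢
        omega
      refine hold Z hZ y ⟨⟨w₁, a2.1, ?_⟩, ⟨w₂, b2.1, ?_⟩⟩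
      · rw [a4 _ (join_seen B S₀ pl e1)]
        exact a2.2
      · rw [b4 _ (join_seen B S₀ pl e2)]
        exact b2.2)
  have hterm : ∀ (M : Alg) (p : Polynomial ℕ), (M, p) ∈ (Cls.np M₁ M₂ p₁ p₂).algs →
      ∀ Z : I → Bool, cnt Z ≤ R → Acc (join B (wor S₀ pl Z)) M p y → ∃ f ∈ tm M p, Sat f Z := by
    intro M p hM Z hZ hA
    obtain ⟨w, hw⟩ := hA
    obtain ⟨Q, h1, _, h3⟩ := hr (M, p) hM y.length (join B (wor S₀ pl Z)) y w le_rfl hw.1
    exact ⟨(seen pl Q, Z), ⟨Z, w, Q, hZ, hw, h1, h3, rfl⟩, fun i _ => rfl⟩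
  refine ⟨T, fun Z hZ => ⟨fun hb hA => ?_, fun hb hA => ?_⟩, hT3⟩
  · have h1 := hT2 Z (hterm M₂ p₂ (by simp [Cls.algs]) Z hZ hA)
    rw [hb] at h1
    exact absurd h1 (by simp)
  · have h1 := hT1 Z (hterm M₁ p₁ (by simp [Cls.algs]) Z hZ hA)
    rw [hb] at h1
    exact absurd h1 (by simp)

/-- the choice of the plants as a set -/
def cv {κ Ω : Type} [DecidableEq Ω] (a : κ → Option Ω) : κ × Ω → Bool :=
  fun i => decide (a i.1 = some i.2)

/-- The value `f` depends on the strings of length at most `M` only, and it notices a random change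
of the oracle only if some of them is changed with a large probability. -/
def Hyb (M : ℕ) (f : Oracle → ℝ) : Prop :=
  (∀ A A' : Oracle, (∀ y : List Bool, y.length ≤ M → A y = A' y) → f A = f A') ∧
  ∀ (ι : Type) [Fintype ι] (A : Oracle) (F : ι → Oracle) (w : ι → ℝ) (K : ℝ), (∀ i, 0 ≤ w i) →
    0 ≤ K → (∀ y : List Bool, y.length ≤ M →
      ∑ i ∈ univ.filter (fun i => F i y ≠ A y), w i ≤ K) →
    ∑ i, w i * (f (F i) - f A) ^ 2 ≤ 16 * (M : ℝ) ^ 2 * K

/-- The solvers: families of quantum circuits, and algorithms. -/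
abbrev Slv : Type := QFamily ⊕ Alg

open Classical in
/-- the value computed by a solver from the input `x` and the advice `h` -/
noncomputable def Slv.val (s : Slv) (A : Oracle) (x h : List Bool) : ℝ :=
  match s with
  | .inl F => accAdv F A x h
  | .inr M => if M.out A (pairBits x h) = some [true] then 1 else 0

open Classical in
theorem Slv.hyb (s : Slv) (pa : Polynomial ℕ) : ∃ P : Polynomial ℕ, ∀ x h : List Bool,
    h.length ≤ pa.eval x.length → Hyb (P.eval x.length) (fun A => s.val A x h) := by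
  cases s with
  | inl F =>
    obtain ⟨P, hP⟩ := F.size
    refine ⟨P, fun x h _ => ⟨fun A A' hA => ?_, fun ι _ A F' w K hw hK hF => ?_⟩⟩
    · exact prob_congr hA _ (hP x.length).2 _ _
    · refine (Pool.Agent.Helper11x.QG.sum_prob_diff_w A F' w hw K (P.eval x.length) hK hF
        (F.circ x.length) (hP x.length).2 _ _).trans ?_
      have h1 : ((F.circ x.length).length : ℝ) ≤ ((P.eval x.length : ℕ) : ℝ) := by
        exact_mod_cast (hP x.length).1
      have h2 := pow_le_pow_left₀ (by positivity) h1 2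
      nlinarith [mul_le_mul_of_nonneg_right h2 hK]
  | inr M =>
    obtain ⟨qb, hqb⟩ := M.out_local
    set R : Polynomial ℕ := 2 * Polynomial.X + 1 + pa with hR
    refine ⟨M.p.comp R + qb.comp R + 1, fun x h hh => ?_⟩
    have hRe : (pairBits x h).length ≤ R.eval x.length := by
      rw [length_pairBits, hR]
      simp
      exact hh
    set P := (M.p.comp R + qb.comp R + 1).eval x.length with hP
    have hPe : P = M.p.eval (R.eval x.length) + qb.eval (R.eval x.length) + 1 := by
      rw [hP]
      simp [Polynomial.eval_comp]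
    have e1 := eval_mono M.p hRe
    have e2 := eval_mono qb hRe
    refine ⟨fun A A' hA => ?_, fun ι _ A F' w K hw hK hF => ?_⟩
    · obtain ⟨Q, h1, h2, h3⟩ := hqb A (pairBits x h)
      show (if _ then (1 : ℝ) else 0) = if _ then (1 : ℝ) else 0
      rw [h3 A' fun q hq => (hA q (by have := h2 q hq; omega)).symm]
    · obtain ⟨Q, h1, h2, h3⟩ := hqb A (pairBits x h)
      have key : ∀ i, w i * (Slv.val (.inr M) (F' i) x h - Slv.val (.inr M) A x h) ^ 2 ≤
          ∑ q ∈ Q, if F' i q ≠ A q then w i else 0 := by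
        intro i
        by_cases hi : ∀ q ∈ Q, F' i q = A q
        · have h4 : Slv.val (.inr M) (F' i) x h = Slv.val (.inr M) A x h := by
            show (if _ then (1 : ℝ) else 0) = if _ then (1 : ℝ) else 0
            rw [h3 _ hi]
          rw [h4, sub_self]
          simp only [ne_eq, OfNat.ofNat_ne_zero, not_false_eq_true, zero_pow, mul_zero]
          exact sum_nonneg fun q _ => by split_ifs <;> first | exact hw i | exact le_rfl
        · push Not at hi
          obtain ⟨q, hq, hne⟩ := hi
          have h5 : (Slv.val (.inr M) (F' i) x h - Slv.val (.inr M) A x h) ^ 2 ≤ 1 := by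
            show ((if _ then (1 : ℝ) else 0) - if _ then (1 : ℝ) else 0) ^ 2 ≤ 1
            split_ifs <;> norm_num
          have h6 : w i ≤ ∑ q ∈ Q, if F' i q ≠ A q then w i else 0 := by
            refine le_trans (le_of_eq ?_) (single_le_sum (f := fun q =>
              if F' i q ≠ A q then w i else 0) (fun q _ => ?_) hq)
            · rw [if_pos hne]
            · show 0 ≤ if F' i q ≠ A q then w i else 0
              split_ifs
              · exact hw i
              · exact le_rfl
          exact (mul_le_of_le_one_right (hw i) h5).trans h6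
      refine (sum_le_sum fun i _ => key i).trans ?_
      rw [sum_comm]
      have h7 : ∀ q ∈ Q, ∑ i, (if F' i q ≠ A q then w i else 0) ≤ K := by
        intro q hq
        rw [← sum_filter]
        exact hF q (by have := h2 q hq; omega)
      refine (sum_le_sum h7).trans ?_
      rw [sum_const, nsmul_eq_mul]
      have h8 : (Q.card : ℝ) ≤ P := by
        have : Q.card ≤ P := by omega
        exact_mod_cast this
      have h9 : (1 : ℝ) ≤ P := by
        have : 1 ≤ P := by omega
        exact_mod_cast this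
      have h10 : (Q.card : ℝ) ≤ 16 * (P : ℝ) ^ 2 := by nlinarith
      exact mul_le_mul_of_nonneg_right h10 hK

open Classical in
/-- **The value of a solver is smooth in the plants.** -/
theorem smO_hyb {κ Ω : Type} [DecidableEq Ω] (B : Oracle)
    (S₀ : Finset (List Bool)) {pl : κ × Ω → List Bool} (hpl : Function.Injective pl)
    (T : List Bool → (κ × Ω → Bool) → Bool) {D M : ℕ} (hD1 : 1 ≤ D)
    (hD : ∀ q : List Bool, q.length ≤ M → ∀ Z, ∃ C : Finset (κ × Ω), C.card ≤ D ∧
      ∀ Z', (∀ i ∈ C, Z' i = Z i) → T q Z' = T q Z)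
    {f : Oracle → ℝ} (hf : Hyb M f) :
    SmO (16 * (M : ℝ) ^ 2 * D) (fun a : κ → Option Ω =>
      f (join (join B (wor S₀ pl (cv a))) (fun q => T q (cv a)))) := by
  intro ι _ w K a F hw hK hF
  set O : (κ × Ω → Bool) → Oracle := fun Z => join (join B (wor S₀ pl Z)) (fun q => T q Z) with hO
  have key : ∀ y : List Bool, y.length ≤ M → ∀ Z, ∃ C : Finset (κ × Ω), C.card ≤ D ∧
      ∀ Z', (∀ i ∈ C, Z' i = Z i) → O Z' y = O Z y := by
    intro y hy Z
    rcases y with _ | ⟨_ | _, y⟩
    · exact ⟨∅, by simp, fun Z' _ => rfl⟩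
    · rcases y with _ | ⟨_ | _, y⟩
      · exact ⟨∅, by simp, fun Z' _ => rfl⟩
      · exact ⟨∅, by simp, fun Z' _ => rfl⟩
      · by_cases h : ∃ i, pl i = y
        · obtain ⟨i, hi⟩ := h
          refine ⟨{i}, by simpa using hD1, fun Z' hZ' => ?_⟩
          show wor S₀ pl Z' y = wor S₀ pl Z y
          refine wor_congr S₀ pl fun j hj => ?_
          have : j = i := hpl (hj.trans hi.symm)
          rw [this]
          exact hZ' i (mem_singleton_self i)
        · refine ⟨∅, by simp, fun Z' hZ' => ?_⟩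
          show wor S₀ pl Z' y = wor S₀ pl Z y
          exact wor_congr S₀ pl fun j hj => absurd ⟨j, hj⟩ h
    · obtain ⟨C, h1, h2⟩ := hD y (by rw [List.length_cons] at hy; omega) Z
      exact ⟨C, h1, fun Z' hZ' => h2 Z' hZ'⟩
  have h := hf.2 ι (O (cv a)) (fun i => O (cv (F i))) w (D * K) hw (by positivity) (by
      intro y hy
      obtain ⟨R, h1, h2⟩ := key y hy (cv a)
      have hsub : univ.filter (fun i => O (cv (F i)) y ≠ O (cv a) y) ⊆
          R.biUnion (fun c => univ.filter (fun i => ¬ (F i c.1 = some c.2 ↔ a c.1 = some c.2))) := by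
        intro i hi
        have h3 := (mem_filter.1 hi).2
        rw [mem_biUnion]
        by_contra hcon
        apply h3
        apply h2
        intro c hc
        by_contra h5
        apply hcon
        refine ⟨c, hc, mem_filter.2 ⟨mem_univ _, fun h6 => h5 ?_⟩⟩
        unfold cv
        rw [Bool.eq_iff_iff, decide_eq_true_eq, decide_eq_true_eq]
        exact h6
      refine (sum_le_sum_of_subset_of_nonneg hsub fun i _ _ => hw i).trans ?_
      refine (sum_bU R _ _ hw).trans ?_
      refine (sum_le_sum fun c _ => hF c.1 c.2).trans ?_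
      rw [sum_const, nsmul_eq_mul]
      apply mul_le_mul_of_nonneg_right _ hK
      exact_mod_cast h1)
  refine h.trans (le_of_eq ?_)
  ring

end Pool.Agent.Helper11x.SP
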