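import Pool.Agent.Helper11x.SP.Stage
import Pool.Agent.HM13.PC.Ext
import Pool.Agent.TH678.WP.Down

/-!
# The sparse oracle
-/

set_option autoImplicit false

namespace Pool.Agent.Helper11x.SP

open Finset Filter Pool.Agent.NPC Pool.Agent.H620R2.Gauge Pool.Agent.TH678.GC Pool.Agent.HM13.PC
  Pool.Agent.Helper11x.QG Pool.Agent.H622R2 Pool.Agent.H622R2.Exp
open Pool.Agent.H9x.Q (QFamily Gate Short prob prob_congr)

theorem poly_tag {β : Type} [TEnc β] {f : β → ℕ} {v : β → List Bool} (hf : UPoly f)
    (hv : Poly v) : Poly (fun a => tag (f a) (v a)) :=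
  Poly.append (TH678.WP.poly_replicate hf true) (Poly.cons (NPC.Poly.const false) hv)

/-- **The inputs with a plant of a given side form a language in `UP`.** -/
theorem up_Sd (B S : Oracle) (e : ℕ) (c : Bool)
    (h1 : ∀ x w, S (cell e c x w) = true → w.length = x.length)
    (h2 : ∀ x w w', S (cell e c x w) = true → S (cell e c x w') = true → w = w') :
    IsUP (join B S) (Sd e c S) := by
  have hx : Poly (fun y => (unpair y).2) := Poly.snd poly_unpair
  have hw : Poly (fun y => (unpair y).1) := Poly.fst poly_unpair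
  have hcell : Poly (fun y => true :: cell e c (unpair y).2 (unpair y).1) :=
    Poly.cons (NPC.Poly.const true) (poly_tag (UPoly.length hx) (poly_tag (UPoly.const e)
      (Poly.cons (NPC.Poly.const c) (Poly.append hx hw))))
  refine ⟨fun z => [join B S (true :: cell e c (unpair z).2 (unpair z).1)], Polynomial.X,
    TH678.WP.isFP_ask' _ hcell, fun x => ?_, fun x w w' a1 a2 => ?_⟩
  · refine exists_congr fun w => ?_
    simp only [unpair_pairBits, List.cons.injEq, and_true, Polynomial.eval_X]
    exact ⟨fun h => ⟨(h1 x w h).le, h⟩, fun h => h.2⟩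
  · simp only [unpair_pairBits, List.cons.injEq, and_true] at a1 a2
    exact h2 x w w' a1 a2

/-- There is room for hard plants of length about `ℓ`, for arbitrarily large `ℓ`. -/
def Room (g : ℕ → ℕ) (γ : ℝ) (pa : Polynomial ℕ) : Prop :=
  ∀ (D : Polynomial ℕ) (m n : ℕ), ∃ ℓ : ℕ, n < ℓ ∧ ∃ (κ : Type) (_ : Fintype κ)
    (_ : DecidableEq κ) (inp : κ → List Bool), Function.Injective inp ∧
      (∀ k, (inp k).length = ℓ) ∧ m + 2 * Fintype.card κ ≤ g ℓ ∧
      HardP κ (Bool × Fin (2 ^ ℓ)) Prod.fst ((D.eval ℓ : ℕ) : ℝ) (2 ^ (2 * pa.eval ℓ)) γ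

/-- a presentation of a pair -/
abbrev Pres : Type := Alg × Alg × Polynomial ℕ × Polynomial ℕ

/-- the class of pairs -/
def Pres.cls (c : Pres) : Cls := Cls.np c.1 c.2.1 c.2.2.1 c.2.2.2

/-- a state: the finite set, the level, the partial separators -/
structure St : Type where
  /-- the strings so far -/
  S : Finset (List Bool)
  /-- the strings up to this length are decided -/
  N : ℕ
  /-- the parts of the separators that are fixed -/
  σ : ℕ → List Bool → Option Bool

/-- the promise is broken for ever -/
def St.Broken (B : Oracle) (p : St) (c : Cls) : Prop :=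
  ∀ S : Oracle, Agr S p.S p.N → ¬ c.Hold (join B S)

/-- the plants and the separator number `e` are in order -/
def St.Good (B : Oracle) (p : St) (c : Cls) (e : ℕ) : Prop :=
  (∀ c x w c' w', cell e c x w ∈ p.S → cell e c' x w' ∈ p.S → c = c' ∧ w = w') ∧
    ∀ y b, p.σ e y = some b → ∀ S : Oracle, Agr S p.S p.N → c.Sep (join B S) y b

/-- extension of states -/
def St.Ext (p q : St) : Prop :=
  p.N ≤ q.N ∧ (p.S ⊆ q.S ∧ ∀ s ∈ q.S, s ∉ p.S → p.N < s.length) ∧
    ∀ e y b, p.σ e y = some b → q.σ e y = some b

theorem St.Ext.trans' {p q r : St} (h₁ : p.Ext q) (h₂ : q.Ext r) : p.Ext r := by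
  refine ⟨h₁.1.trans h₂.1, ⟨h₁.2.1.1.trans h₂.2.1.1, fun s hs hp => ?_⟩,
    fun e y a h => h₂.2.2 e y a (h₁.2.2 e y a h)⟩
  by_cases hq : s ∈ q.S
  · exact h₁.2.1.2 s hq hp
  · exact lt_of_le_of_lt h₁.1 (h₂.2.1.2 s hs hq)

theorem St.Ext.agr {p q : St} (h : p.Ext q) {S : Oracle} (hS : Agr S q.S q.N) :
    Agr S p.S p.N := by
  intro s hs
  rw [hS s (hs.trans h.1)]
  constructor
  · intro hq
    by_contra hp
    have := h.2.1.2 s hq hp
    omega
  · exact fun hp => h.2.1.1 hp

open Classical in
/-- the invariant -/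
def St.Inv (g : ℕ → ℕ) (B : Oracle) (cl : ℕ → Pres) (p : St) : Prop :=
  (∀ s ∈ p.S, s.length ≤ p.N) ∧ (∀ n, (p.S.filter (fun s => s.length ≤ n)).card ≤ g n) ∧
    (∀ s ∈ p.S, ∃ e c x w, s = cell e c x w ∧ w.length = x.length) ∧
    ∀ e, p.Good B (cl e).cls e ∨ p.Broken B (cl e).cls

open Classical in
/-- **The sparse oracle, for presentations.** -/
theorem exists_world {g : ℕ → ℕ} (hg : Monotone g) {γ : ℕ → ℝ} {P : Polynomial ℕ → Prop}
    (hP : ∃ pa, P pa) (hroom : ∀ pa, P pa → ∀ k, Room g (γ k) pa) (B : Oracle) :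
    ∃ S : Oracle, Sparse g S ∧ ∀ c : Pres, c.cls.Hold (join B S) →
      ∃ T : Oracle, (∀ y, c.cls.Sep (join B S) y (T y)) ∧ ∃ U V : Set (List Bool),
        IsUP (join B S) U ∧ IsUP (join B S) V ∧ Disjoint U V ∧
        ∀ (F : Slv) (pa : Polynomial ℕ), P pa → ∀ k n₀ : ℕ, ∃ ℓ ≥ n₀, ∀ h : List Bool,
          h.length ≤ pa.eval ℓ →
          ({x : List Bool | x.length = ℓ ∧
            Rgt U V x (F.val (join (join B S) T) x h)}.ncard : ℝ) <
          γ k * ({x : List Bool | x.length = ℓ ∧ (x ∈ U ∨ x ∈ V)}.ncard : ℝ) := by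
  have h0 : Countable (Polynomial ℕ) := CC.poly_countable
  have h2 : Nonempty Alg := ⟨⟨fun _ => [], CC.const_polyTime _, 0⟩⟩
  have h3 : Nonempty Pres := ⟨(h2.some, h2.some, 0, 0)⟩
  have h4 : Nonempty Slv := ⟨Sum.inr h2.some⟩
  obtain ⟨pa₀, hpa₀⟩ := hP
  have h5 : Nonempty {pa : Polynomial ℕ // P pa} := ⟨⟨pa₀, hpa₀⟩⟩
  have h6 := Pool.Agent.H9x.Q.QFamily.countable
  obtain ⟨cl, hcl⟩ := exists_surjective_nat Pres
  obtain ⟨rq, hrq⟩ := exists_surjective_nat (ℕ × Slv × {pa : Polynomial ℕ // P pa} × ℕ × ℕ)
  let p₀ : St := ⟨∅, 0, fun _ _ => none⟩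
  have hp₀ : p₀.Inv g B cl := ⟨by simp [p₀], by simp [p₀], by simp [p₀], fun e => Or.inl
    ⟨fun c x w c' w' h => absurd h (by simp [p₀]), fun y b h => absurd h (by simp [p₀])⟩⟩
  -- the property obtained at stage `j`
  let Q : ℕ → {p : St // p.Inv g B cl} → Prop := fun j p => j < p.1.N ∧
    (p.1.Broken B (cl (rq j).1).cls ∨
      ∃ ℓ ≥ (rq j).2.2.2.2, ∀ S T : Oracle, Agr S p.1.S p.1.N →
        (∀ c x w, S (cell (rq j).1 c x w) = true → w.length = x.length) →
        (∀ y b, p.1.σ (rq j).1 y = some b → T y = b) → ∀ h : List Bool,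
          h.length ≤ (rq j).2.2.1.1.eval ℓ →
          ({x : List Bool | x.length = ℓ ∧ Rgt (Sd (rq j).1 true S) (Sd (rq j).1 false S) x
            ((rq j).2.1.val (join (join B S) T) x h)}.ncard : ℝ) <
          γ (rq j).2.2.2.1 * ({x : List Bool | x.length = ℓ ∧ (x ∈ Sd (rq j).1 true S ∨
            x ∈ Sd (rq j).1 false S)}.ncard : ℝ))
  obtain ⟨st, hst, hQ⟩ := seq_ext (St := {p : St // p.Inv g B cl}) (fun p q => p.1.Ext q.1)
    (fun p => ⟨le_rfl, ⟨Subset.refl _, fun s h1 h2 => absurd h1 h2⟩, fun _ _ _ h => h⟩)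
    (fun p q r h₁ h₂ => h₁.trans' h₂) Q ⟨p₀, hp₀⟩ (by
      rintro j ⟨p, hp⟩
      obtain ⟨hI1, hI2, hI3, hI4⟩ := hp
      rcases hj : rq j with ⟨e, F, ⟨pa, hpa⟩, k, n₀⟩
      rcases hI4 e with h | h
      · obtain ⟨r, hr⟩ := (cl e).cls.exists_bd
        obtain ⟨size, hsz⟩ := Slv.hyb F pa
        set D : Polynomial ℕ := 16 * size ^ 2 * (r.comp size * r.comp size + 1) with hD
        obtain ⟨ℓ, hℓ, κ, i1, i2, inp, hinp, hlen, hcard, hard⟩ :=
          hroom pa hpa k D p.S.card (p.N + n₀)
        have hDe : ((D.eval ℓ : ℕ) : ℝ) = 16 * ((size.eval ℓ : ℕ) : ℝ) ^ 2 *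
            ((r.eval (size.eval ℓ) * r.eval (size.eval ℓ) + 1 : ℕ) : ℝ) := by
          rw [hD]
          simp [Polynomial.eval_comp]
        rw [hDe] at hard
        obtain ⟨S₁, N₁, σ₁, a1, a2, a3, a4, a5, a6, a7, a8⟩ := stage B e hr F p.S p.N
          (p.σ e) hI1 h.2 (by omega : p.N < ℓ) inp hinp hlen
          (fun x h hx hh => by subst hx; exact hsz x h hh) hard (max p.N j + 1)
        set q : St := ⟨S₁, N₁, Function.update p.σ e σ₁⟩ with hq
        have hnewl : ∀ s ∈ S₁, s ∉ p.S → ℓ < s.length := by
          intro s hs hsp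
          rcases a4 s hs with h' | ⟨c, x, w, rfl, hx, hw⟩
          · exact absurd h' hsp
          · rw [length_cell]
            omega
        have hpq : p.Ext q := by
          refine ⟨by show p.N ≤ N₁; omega, ⟨a3, fun s hs hsp => ?_⟩, fun e' y a h' => ?_⟩
          · have := hnewl s hs hsp
            omega
          · show Function.update p.σ e σ₁ e' y = some a
            by_cases he : e' = e
            · subst he
              rw [Function.update_self]
              exact a7 y a h'
            · rw [Function.update_of_ne he]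
              exact h'
        have hqI : q.Inv g B cl := by
          refine ⟨a5, fun n => ?_, fun s hs => ?_, fun e' => ?_⟩
          · rcases lt_or_ge n ℓ with hn | hn
            · refine le_trans (card_le_card ?_) (hI2 n)
              intro s hs
              rw [mem_filter] at hs ⊢
              refine ⟨?_, hs.2⟩
              by_contra hsp
              have := hnewl s hs.1 hsp
              omega
            · refine (card_filter_le _ _).trans ?_
              show S₁.card ≤ g n
              have := hg hn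
              omega
          · rcases a4 s hs with h' | ⟨c, x, w, rfl, hx, hw⟩
            · exact hI3 s h'
            · exact ⟨e, c, x, w, rfl, by omega⟩
          · by_cases he : e' = e
            · subst he
              rcases a8 with a8 | ⟨a8, a9, _⟩
              · exact Or.inr a8
              · refine Or.inl ⟨fun c x w c' w' h1 h2 => ?_, fun y b h' => a9 y b ?_⟩
                · by_cases hx : x.length = ℓ
                  · exact a8 c x w c' w' h1 h2 hx
                  · have key : ∀ c w, cell e' c x w ∈ S₁ → cell e' c x w ∈ p.S := by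
                      intro c w hc
                      rcases a4 _ hc with h' | ⟨c', x', w', h', hx', hw'⟩
                      · exact h'
                      · obtain ⟨_, _, hxx, _⟩ := cell_inj h'
                        rw [hxx] at hx
                        exact absurd hx' hx
                    exact h.1 c x w c' w' (key _ _ h1) (key _ _ h2)
                · have h'' : Function.update p.σ e' σ₁ e' y = some b := h'
                  rwa [Function.update_self] at h''
            · rcases hI4 e' with h' | h'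
              · refine Or.inl ⟨fun c x w c' w' h1 h2 => ?_, fun y b h'' S hS => ?_⟩
                · have key : ∀ c w, cell e' c x w ∈ S₁ → cell e' c x w ∈ p.S := by
                    intro c w hc
                    rcases a4 _ hc with h'' | ⟨c', x', w', h'', hx', hw'⟩
                    · exact h''
                    · obtain ⟨hee, _, _, _⟩ := cell_inj h''
                      exact absurd hee he
                  exact h'.1 c x w c' w' (key _ _ h1) (key _ _ h2)
                · have h3 : Function.update p.σ e σ₁ e' y = some b := h''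
                  rw [Function.update_of_ne he] at h3
                  exact h'.2 y b h3 S (hpq.agr hS)
              · exact Or.inr fun S hS => h' S (hpq.agr hS)
        refine ⟨⟨q, hqI⟩, hpq, ?_, ?_⟩
        · show j < N₁
          omega
        · simp only [hj]
          rcases a8 with a8 | ⟨_, _, a8⟩
          · exact Or.inl a8
          · refine Or.inr ⟨ℓ, by show n₀ ≤ ℓ; omega, fun S T hS hlw hT => a8 S T hS hlw
              fun y b h' => hT y b ?_⟩
            show Function.update p.σ e σ₁ e y = some b
            rw [Function.update_self]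
            exact h'
      · set q : St := ⟨p.S, max p.N j + 1, p.σ⟩ with hq
        have hpq : p.Ext q := ⟨by show p.N ≤ max p.N j + 1; omega,
          ⟨Subset.refl _, fun s h1 h2 => absurd h1 h2⟩, fun _ _ _ h' => h'⟩
        have hqI : q.Inv g B cl := by
          refine ⟨fun s hs => ?_, hI2, hI3, fun e' => ?_⟩
          · have := hI1 s hs
            show s.length ≤ max p.N j + 1
            omega
          · rcases hI4 e' with h' | h'
            · exact Or.inl ⟨h'.1, fun y b h'' S hS => h'.2 y b h'' S (hpq.agr hS)⟩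
            · exact Or.inr fun S hS => h' S (hpq.agr hS)
        refine ⟨⟨q, hqI⟩, hpq, ?_, ?_⟩
        · show j < max p.N j + 1
          omega
        · simp only [hj]
          exact Or.inl fun S hS => h S (hpq.agr hS))
  -- the limit
  have hNj : ∀ j, j < (st (j + 1)).1.N := fun j => (hQ j).1
  set S : Oracle := fun s => decide (s ∈ (st (s.length + 1)).1.S) with hS
  have hlim : ∀ j, Agr S (st j).1.S (st j).1.N := by
    intro j s hs
    have h6 := hNj s.length
    rw [hS]
    simp only [decide_eq_true_eq]
    rcases le_total (s.length + 1) j with h | h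
    · constructor
      · exact fun h' => (hst _ _ h).2.1.1 h'
      · intro h'
        by_contra h7
        have := (hst _ _ h).2.1.2 s h' h7
        omega
    · constructor
      · intro h'
        by_contra h7
        have := (hst _ _ h).2.1.2 s h' h7
        omega
      · exact fun h' => (hst _ _ h).2.1.1 h'
  have hlw : ∀ e c x w, S (cell e c x w) = true → w.length = x.length := by
    intro e c x w hw
    have h7 : cell e c x w ∈ (st ((cell e c x w).length + 1)).1.S := of_decide_eq_true hw
    obtain ⟨e', c', x', w', h8, h9⟩ := (st _).2.2.2.1 _ h7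
    obtain ⟨_, _, h10, h11⟩ := cell_inj h8
    rw [h10, h11]
    exact h9
  refine ⟨S, fun n => ?_, fun c hhold => ?_⟩
  · have e1 : {s : List Bool | S s = true ∧ s.length ≤ n} =
        (((st (n + 1)).1.S.filter (fun s => s.length ≤ n) : Finset (List Bool)) :
          Set (List Bool)) := by
      ext s
      rw [Set.mem_ofPred_eq, mem_coe, mem_filter]
      refine and_congr_left fun hs => ?_
      exact hlim (n + 1) s (by have := hNj n; omega)
    rw [e1, Set.ncard_coe_finset]
    exact (st (n + 1)).2.2.1 n
  · obtain ⟨e, rfl⟩ := hcl c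
    have hnb : ∀ j, ¬ (st j).1.Broken B (cl e).cls := fun j h => h S (hlim j) hhold
    have hgood : ∀ j, (st j).1.Good B (cl e).cls e := fun j =>
      ((st j).2.2.2.2 e).resolve_right (hnb j)
    have huni : ∀ c x w c' w', S (cell e c x w) = true → S (cell e c' x w') = true →
        c = c' ∧ w = w' := by
      intro c x w c' w' h1 h2
      have h8 := hNj ((cell e c x w).length + (cell e c' x w').length)
      refine (hgood ((cell e c x w).length + (cell e c' x w').length + 1)).1 c x w c' w' ?_ ?_
      · rw [← hlim _ _ (by omega)]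
        exact h1
      · rw [← hlim _ _ (by omega)]
        exact h2
    choose S₁ hS₁ using fun y => Cls.exists_sep hhold y
    have hSS : ∀ y, ∃ a : Bool, (cl e).cls.Sep (join B S) y a ∧
        ∀ j b, (st j).1.σ e y = some b → a = b := by
      intro y
      by_cases h : ∃ j b, (st j).1.σ e y = some b
      · obtain ⟨j, b, hb⟩ := h
        refine ⟨b, (hgood j).2 y b hb S (hlim j), fun j' b' hb' => ?_⟩
        rcases le_total j j' with h' | h'
        · exact Option.some.inj (((hst _ _ h').2.2 e y b hb).symm.trans hb')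
        · exact Option.some.inj (hb.symm.trans ((hst _ _ h').2.2 e y b' hb'))
      · push Not at h
        exact ⟨S₁ y, hS₁ y, fun j b hb => absurd hb (h j b)⟩
    choose T hT1 hT2 using hSS
    refine ⟨T, hT1, Sd e true S, Sd e false S,
      up_Sd B S e true (hlw e true) (fun x w w' h1 h2 => (huni _ _ _ _ _ h1 h2).2),
      up_Sd B S e false (hlw e false) (fun x w w' h1 h2 => (huni _ _ _ _ _ h1 h2).2), ?_,
      fun F pa hpa k n₀ => ?_⟩
    · rw [Set.disjoint_left]
      rintro x ⟨w, hw⟩ ⟨w', hw'⟩
      have := (huni _ _ _ _ _ hw hw').1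
      exact absurd this (by simp)
    · obtain ⟨j, hj⟩ := hrq (e, F, ⟨pa, hpa⟩, k, n₀)
      have h4 := (hQ j).2
      rw [hj] at h4
      obtain ⟨ℓ, hℓ, h5⟩ := h4.resolve_left (hnb (j + 1))
      exact ⟨ℓ, hℓ, h5 S T (hlim (j + 1)) (hlw e) fun y b h => hT2 y (j + 1) b h⟩

end Pool.Agent.Helper11x.SP
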